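import Pool.Agent.Q202.IDet.Levy
import Pool.Agent.Y588.TC.Defs

set_option autoImplicit false

namespace Pool.Agent.Q202.IDet

open Pool.Agent.H685R3 Pool.Agent.Y588.TC

theorem q0 (m : ℕ) : quarter (4 * m) = 4 * m + 2 := by
  unfold quarter
  rw [if_pos (by omega)]

theorem q2 (m : ℕ) : quarter (4 * m + 2) = 4 * m + 1 := by
  unfold quarter
  rw [if_neg (by omega), if_pos (by omega)]
  omega

theorem q1 (m : ℕ) : quarter (4 * m + 1) = 4 * m + 3 := by
  unfold quarter
  rw [if_neg (by omega), if_neg (by omega), if_pos (by omega)]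

theorem q3 (m : ℕ) : quarter (4 * m + 3) = 4 * m := by
  unfold quarter
  rw [if_neg (by omega), if_neg (by omega), if_neg (by omega)]
  omega

theorem t0 (m : ℕ) : third (4 * m) = 4 * m + 2 := by
  unfold third
  rw [if_pos (by omega)]

theorem t2 (m : ℕ) : third (4 * m + 2) = 2 * m + 1 := by
  unfold third
  rw [if_neg (by omega), if_pos (by omega)]
  omega

theorem t1 (m : ℕ) : third (2 * m + 1) = 4 * m := by
  unfold third
  rw [if_neg (by omega), if_neg (by omega)]
  omega

theorem quarter_four (n : ℕ) : quarter (quarter (quarter (quarter n))) = n := by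
  obtain ⟨m, h | h | h | h⟩ : ∃ m, n = 4 * m ∨ n = 4 * m + 1 ∨ n = 4 * m + 2 ∨ n = 4 * m + 3 :=
    ⟨n / 4, by omega⟩
  · rw [h, q0, q2, q1, q3]
  · rw [h, q1, q3, q0, q2]
  · rw [h, q2, q1, q3, q0]
  · rw [h, q3, q0, q2, q1]

theorem third_three (n : ℕ) : third (third (third n)) = n := by
  obtain ⟨m, h | h | h⟩ : ∃ m, n = 4 * m ∨ n = 2 * m + 1 ∨ n = 4 * m + 2 := by
    rcases (by omega : n % 4 = 0 ∨ n % 2 = 1 ∨ n % 4 = 2) with h | h | h
    · exact ⟨n / 4, by omega⟩
    · exact ⟨n / 2, by omega⟩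
    · exact ⟨n / 4, by omega⟩
  · rw [h, t0, t2, t1]
  · rw [h, t1, t0, t2]
  · rw [h, t2, t1, t0]

/-- The permutation `quarter` of the starting files. -/
def quarterE : Equiv.Perm ℕ :=
  ⟨quarter, fun n => quarter (quarter (quarter n)), fun n => quarter_four n,
    fun n => quarter_four n⟩

/-- The permutation `third` of the starting files. -/
def thirdE : Equiv.Perm ℕ :=
  ⟨third, fun n => third (third n), fun n => third_three n, fun n => third_three n⟩

/-- Thompson's circle group, in the representation of the starting files, is paradoxical. -/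
theorem circle_paradoxical {Γ : Subgroup (Equiv.Perm (ℕ → Bool))} (h1 : pull quarterE ∈ Γ)
    (h2 : pull thirdE ∈ Γ) : ¬ NonParadoxical Γ := by
  intro hN
  have c1 := ((isCoord_pull quarterE).mul (isCoord_pull quarterE)).mul (isCoord_pull thirdE)
  have c2 := c1.mul (isCoord_pull quarterE)
  have m1 : pull quarterE * pull quarterE * pull thirdE ∈ Γ :=
    Γ.mul_mem (Γ.mul_mem h1 h1) h2
  have m2 : pull quarterE * pull quarterE * pull thirdE * pull quarterE ∈ Γ := Γ.mul_mem m1 h1
  have e1 : ∀ q, q % 2 = 0 → (thirdE * (quarterE * quarterE)) q % 4 = 0 := by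
    intro q hq
    change third (quarter (quarter q)) % 4 = 0
    rcases (by omega : q % 4 = 0 ∨ q % 4 = 2) with h | h
    · obtain ⟨m, rfl⟩ : ∃ m, q = 4 * m := ⟨q / 4, by omega⟩
      have h3 : 4 * m + 1 = 2 * (2 * m) + 1 := by ring
      rw [q0, q2, h3, t1]
      omega
    · obtain ⟨m, rfl⟩ : ∃ m, q = 4 * m + 2 := ⟨q / 4, by omega⟩
      have h3 : 4 * m + 3 = 2 * (2 * m + 1) + 1 := by ring
      rw [q2, q1, h3, t1]
      omega
  have e2 : ∀ q, q % 2 = 0 → (quarterE * (thirdE * (quarterE * quarterE))) q % 4 = 2 := by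
    intro q hq
    have h3 := e1 q hq
    change quarter ((thirdE * (quarterE * quarterE)) q) % 4 = 2
    generalize (thirdE * (quarterE * quarterE)) q = n at h3
    obtain ⟨m, rfl⟩ : ∃ m, n = 4 * m := ⟨n / 4, by omega⟩
    rw [q0]
    omega
  refine hN _ m1 _ m2 _ _ _ _ c1 c2 0 (by norm_num) ?_ ?_ ?_
  · refine Set.finite_empty.subset ?_
    rintro _ ⟨⟨q, hq, rfl⟩, hq'⟩
    have := e1 q hq
    exact hq' (by change _ % 2 = 0; omega)
  · refine Set.finite_empty.subset ?_
    rintro _ ⟨⟨q, hq, rfl⟩, hq'⟩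
    have := e2 q hq
    exact hq' (by change _ % 2 = 0; omega)
  · refine Set.finite_empty.subset ?_
    rintro _ ⟨⟨q, hq, rfl⟩, ⟨q', hq', h3⟩⟩
    have h4 := e1 q hq
    have h5 := e2 q' hq'
    rw [h3] at h5
    omega

theorem left_eq (n : ℕ) : left n = third (quarter (quarter n)) := by
  obtain ⟨m, h | h | h | h⟩ : ∃ m, n = 4 * m ∨ n = 4 * m + 1 ∨ n = 4 * m + 2 ∨ n = 4 * m + 3 :=
    ⟨n / 4, by omega⟩
  · have h3 : 4 * m + 1 = 2 * (2 * m) + 1 := by ring
    rw [h, q0, q2, h3, t1, left, if_pos (by omega)]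
    ring
  · rw [h, q1, q3, t0, left, if_neg (by omega), if_pos (by omega)]
  · have h3 : 4 * m + 3 = 2 * (2 * m + 1) + 1 := by ring
    rw [h, q2, q1, h3, t1, left, if_pos (by omega)]
    ring
  · rw [h, q3, q0, t2, left, if_neg (by omega), if_neg (by omega)]
    omega

theorem right_eq (n : ℕ) :
    right n = quarter (quarter (third (quarter (third (quarter (quarter n)))))) := by
  rw [← left_eq n]
  obtain ⟨m, h | h | h⟩ : ∃ m, n = 2 * m ∨ n = 4 * m + 1 ∨ n = 4 * m + 3 := by
    rcases (by omega : n % 2 = 0 ∨ n % 4 = 1 ∨ n % 4 = 3) with h | h | h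
    · exact ⟨n / 2, by omega⟩
    · exact ⟨n / 4, by omega⟩
    · exact ⟨n / 4, by omega⟩
  · have h1 : left n = 4 * m := by rw [left, if_pos (by omega)]; omega
    rw [h1, q0, t2, right, if_pos (by omega), h]
    obtain ⟨k, hk | hk⟩ : ∃ k, m = 2 * k ∨ m = 2 * k + 1 := ⟨m / 2, by omega⟩
    · have e1 : 2 * m + 1 = 4 * k + 1 := by omega
      rw [e1, q1, q3]
      omega
    · have e1 : 2 * m + 1 = 4 * k + 3 := by omega
      rw [e1, q3, q0]
      omega
  · have h1 : left n = 4 * m + 2 := by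
      rw [left, if_neg (by omega), if_pos (by omega)]
      omega
    have h2 : left (n / 2) = 4 * m := by rw [left, if_pos (by omega)]; omega
    have e1 : 4 * m + 1 = 2 * (2 * m) + 1 := by ring
    have e2 : 4 * (2 * m) + 2 = 4 * (2 * m) + 2 := rfl
    rw [h1, q2, e1, t1, q0, q2, right, if_neg (by omega), h2]
    ring
  · have h1 : left n = 2 * m + 1 := by
      rw [left, if_neg (by omega), if_neg (by omega)]
      omega
    have h2 : n / 2 = 2 * m + 1 := by omega
    obtain ⟨k, hk | hk⟩ : ∃ k, m = 2 * k ∨ m = 2 * k + 1 := ⟨m / 2, by omega⟩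
    · have e1 : 2 * m + 1 = 4 * k + 1 := by omega
      have e2 : 4 * k + 3 = 2 * (2 * k + 1) + 1 := by ring
      have e3 : left (4 * k + 1) = 4 * k + 2 := by
        rw [left, if_neg (by omega), if_pos (by omega)]
      rw [h1, right, if_neg (by omega), h2, e1, q1, e2, t1, q0, q2, e3]
      ring
    · have e1 : 2 * m + 1 = 4 * k + 3 := by omega
      have e3 : left (4 * k + 3) = 2 * k + 1 := by
        rw [left, if_neg (by omega), if_neg (by omega)]
        omega
      rw [h1, right, if_neg (by omega), h2, e1, q3, t0, q2, q1, e3]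
      ring

/-- The sets invariant under Thompson's circle group are closed under `left` and `right`. -/
theorem circle_left_right {A : Set (ℕ → Bool)} (hA : CircleInvariant A) (x : ℕ → Bool) :
    (x ∘ left ∈ A ↔ x ∈ A) ∧ (x ∘ right ∈ A ↔ x ∈ A) := by
  have hq : ∀ y, y ∘ quarter ∈ A ↔ y ∈ A := fun y => (hA y).1
  have ht : ∀ y, y ∘ third ∈ A ↔ y ∈ A := fun y => (hA y).2
  have e1 : x ∘ left = ((x ∘ third) ∘ quarter) ∘ quarter := by
    funext n
    simp only [Function.comp_apply, left_eq]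
  have e2 : x ∘ right = ((((((x ∘ quarter) ∘ quarter) ∘ third) ∘ quarter) ∘ third) ∘ quarter) ∘
      quarter := by
    funext n
    simp only [Function.comp_apply, right_eq]
  constructor
  · rw [e1, hq, hq, ht]
  · rw [e2, hq, hq, ht, hq, ht, hq, hq]

end Pool.Agent.Q202.IDet
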