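import Mathlib

set_option autoImplicit false

namespace Pool.Agent.Q202.IDet

/-- A function meeting countably many requirements, each of which can be met by extending any
initial segment. -/
theorem exists_generic {α ι : Type} [Countable ι] (f₀ : ℕ → α) (R : ι → (ℕ → α) → ℕ → Prop)
    (hloc : ∀ (i : ι) (f g : ℕ → α) (n : ℕ), (∀ k < n, f k = g k) → R i f n → R i g n)
    (hd : ∀ (i : ι) (f : ℕ → α) (n : ℕ), ∃ (g : ℕ → α) (m : ℕ), (∀ k < n, g k = f k) ∧ R i g m) :
    ∃ f, ∀ i, ∃ n, R i f n := by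
  classical
  rcases isEmpty_or_nonempty ι with he | hne
  · exact ⟨f₀, fun i => he.elim i⟩
  obtain ⟨e, he⟩ := exists_surjective_nat ι
  choose G M hG hM using hd
  let st : ℕ → (ℕ → α) × ℕ := fun j => Nat.rec (f₀, 0)
    (fun j p => (G (e j) p.1 p.2, max (M (e j) p.1 p.2) (p.2 + 1))) j
  have hs : ∀ j, st (j + 1) = (G (e j) (st j).1 (st j).2,
      max (M (e j) (st j).1 (st j).2) ((st j).2 + 1)) := fun j => rfl
  have hn : ∀ j, j ≤ (st j).2 := by
    intro j
    induction j with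
    | zero => exact Nat.zero_le _
    | succ j ih =>
      rw [hs]
      simp only
      omega
  have hstep : ∀ j k, k < (st j).2 → (st (j + 1)).1 k = (st j).1 k := by
    intro j k hk
    rw [hs]
    exact hG _ _ _ k hk
  have hmono : ∀ j, (st j).2 ≤ (st (j + 1)).2 := by
    intro j
    rw [hs]
    simp only
    omega
  have hagree : ∀ i j, ∀ k < (st j).2, (st (j + i)).1 k = (st j).1 k := by
    intro i
    induction i with
    | zero => intro j k _; rfl
    | succ i ih =>
      intro j k hk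
      have h1 : j + (i + 1) = (j + 1) + i := by omega
      rw [h1, ih (j + 1) k (lt_of_lt_of_le hk (hmono j)), hstep j k hk]
  have hf : ∀ j, ∀ k < (st j).2, (st (k + 1)).1 k = (st j).1 k := by
    intro j k hk
    rcases le_total j (k + 1) with h | h
    · obtain ⟨i, hi⟩ := Nat.exists_eq_add_of_le h
      rw [hi]
      exact hagree i j k hk
    · obtain ⟨i, hi⟩ := Nat.exists_eq_add_of_le h
      rw [hi]
      exact (hagree i (k + 1) k (hn (k + 1))).symm
  refine ⟨fun k => (st (k + 1)).1 k, fun i => ?_⟩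
  obtain ⟨j, rfl⟩ := he i
  refine ⟨M (e j) (st j).1 (st j).2, hloc _ _ _ _ (fun k hk => ?_) (hM (e j) (st j).1 (st j).2)⟩
  have h2 : k < (st (j + 1)).2 := by
    rw [hs]
    simp only
    omega
  have h3 := hf (j + 1) k h2
  rw [h3, hs]

/-- The labels of the positions: a fixed bit, or a number. -/
theorem exists_labels {Γ : Type} [Countable Γ] (h : Γ → Equiv.Perm ℕ) (r : Γ → ℕ → Bool) :
    ∃ l : ℕ → Bool ⊕ ℕ,
      (∀ γ b b', {q | q % 2 = b ∧ h γ q % 2 = b' ∧ ¬(h γ q = q ∧ r γ q = false)}.Infinite →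
        ∃ q a a', q % 2 = b ∧ h γ q % 2 = b' ∧ l q = Sum.inl a ∧ l (h γ q) = Sum.inl a' ∧
          a ≠ xor a' (r γ q)) ∧
      (∀ γ b k, {q | q % 2 = b ∧ h γ q = q ∧ r γ q = false}.Infinite →
        ∀ N, ∃ q, N ≤ q ∧ q % 2 = b ∧ h γ q = q ∧ r γ q = false ∧ l q = Sum.inr k) := by
  classical
  let R : (Γ × ℕ × ℕ) ⊕ (Γ × ℕ × ℕ × ℕ) → (ℕ → Bool ⊕ ℕ) → ℕ → Prop := fun i f n =>
    match i with
    | Sum.inl (γ, b, b') =>
      {q | q % 2 = b ∧ h γ q % 2 = b' ∧ ¬(h γ q = q ∧ r γ q = false)}.Infinite →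
        ∃ q a a', q < n ∧ h γ q < n ∧ q % 2 = b ∧ h γ q % 2 = b' ∧ f q = Sum.inl a ∧
          f (h γ q) = Sum.inl a' ∧ a ≠ xor a' (r γ q)
    | Sum.inr (γ, b, k, N) =>
      {q | q % 2 = b ∧ h γ q = q ∧ r γ q = false}.Infinite →
        ∃ q, q < n ∧ N ≤ q ∧ q % 2 = b ∧ h γ q = q ∧ r γ q = false ∧ f q = Sum.inr k
  have hloc : ∀ i (f g : ℕ → Bool ⊕ ℕ) (n : ℕ), (∀ k < n, f k = g k) → R i f n → R i g n := by
    rintro (⟨γ, b, b'⟩ | ⟨γ, b, k, N⟩) f g n hfg hR hinf
    · obtain ⟨q, a, a', h1, h2, h3, h4, h5, h6, h7⟩ := hR hinf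
      exact ⟨q, a, a', h1, h2, h3, h4, by rw [← hfg q h1, h5], by rw [← hfg _ h2, h6], h7⟩
    · obtain ⟨q, h1, h2, h3, h4, h5, h6⟩ := hR hinf
      exact ⟨q, h1, h2, h3, h4, h5, by rw [← hfg q h1, h6]⟩
  have hd : ∀ i (f : ℕ → Bool ⊕ ℕ) (n : ℕ), ∃ (g : ℕ → Bool ⊕ ℕ) (m : ℕ),
      (∀ k < n, g k = f k) ∧ R i g m := by
    rintro (⟨γ, b, b'⟩ | ⟨γ, b, k, N⟩) f n
    · by_cases hinf : {q | q % 2 = b ∧ h γ q % 2 = b' ∧ ¬(h γ q = q ∧ r γ q = false)}.Infinite
      swap
      · exact ⟨f, 0, fun _ _ => rfl, fun h => absurd h hinf⟩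
      have hfin : ({q | q < n} ∪ {q | h γ q < n}).Finite := by
        refine (Set.finite_lt_nat n).union ?_
        have : {q | h γ q < n} = (h γ) ⁻¹' {q | q < n} := rfl
        rw [this]
        exact (Set.finite_lt_nat n).preimage (h γ).injective.injOn
      obtain ⟨q, hq, hq'⟩ := (hinf.sdiff hfin).nonempty
      obtain ⟨h1, h2, h3⟩ := hq
      have h4 : n ≤ q := by
        by_contra h
        exact hq' (Or.inl (not_le.1 h))
      have h5 : n ≤ h γ q := by
        by_contra h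
        exact hq' (Or.inr (not_le.1 h))
      by_cases h6 : h γ q = q
      · refine ⟨Function.update f q (Sum.inl true), q + 1, fun k hk => ?_, fun _ =>
          ⟨q, true, true, by omega, by rw [h6]; omega, h1, h2, ?_, ?_, ?_⟩⟩
        · rw [Function.update_of_ne (by omega)]
        · rw [Function.update_self]
        · rw [h6, Function.update_self]
        · have : r γ q = true := by
            by_contra h
            exact h3 ⟨h6, by simpa using h⟩
          rw [this]
          simp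
      · refine ⟨Function.update (Function.update f (h γ q) (Sum.inl false)) q
          (Sum.inl (!(r γ q))), max q (h γ q) + 1, fun k hk => ?_, fun _ =>
          ⟨q, !(r γ q), false, by omega, by omega, h1, h2, ?_, ?_, ?_⟩⟩
        · rw [Function.update_of_ne (by omega), Function.update_of_ne (by omega)]
        · rw [Function.update_self]
        · rw [Function.update_of_ne h6, Function.update_self]
        · cases r γ q <;> simp
    · by_cases hinf : {q | q % 2 = b ∧ h γ q = q ∧ r γ q = false}.Infinite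
      swap
      · exact ⟨f, 0, fun _ _ => rfl, fun h => absurd h hinf⟩
      obtain ⟨q, hq, hq'⟩ := (hinf.sdiff (Set.finite_lt_nat (max n N))).nonempty
      obtain ⟨h1, h2, h3⟩ := hq
      have h4 : max n N ≤ q := not_lt.1 hq'
      refine ⟨Function.update f q (Sum.inr k), q + 1, fun k' hk => ?_, fun _ =>
        ⟨q, by omega, by omega, h1, h2, h3, ?_⟩⟩
      · rw [Function.update_of_ne (by omega)]
      · rw [Function.update_self]
  obtain ⟨l, hl⟩ := exists_generic (fun _ => Sum.inr 0) R hloc hd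
  refine ⟨l, fun γ b b' hinf => ?_, fun γ b k hinf N => ?_⟩
  · obtain ⟨n, hn⟩ := hl (Sum.inl (γ, b, b'))
    obtain ⟨q, a, a', -, -, h1, h2, h3, h4, h5⟩ := hn hinf
    exact ⟨q, a, a', h1, h2, h3, h4, h5⟩
  · obtain ⟨n, hn⟩ := hl (Sum.inr (γ, b, k, N))
    obtain ⟨q, -, h1, h2, h3, h4, h5⟩ := hn hinf
    exact ⟨q, h1, h2, h3, h4, h5⟩

end Pool.Agent.Q202.IDet
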