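import Pool.Agent.H685R3.KDefs
import Pool.Agent.Q202.IDet.Gen

set_option autoImplicit false

namespace Pool.Agent.Q202.IDet

open Pool.Agent.H685R3

/-- The transformation `γ` of the Cantor space permutes the positions by `h` and then flips the
bits given by `r`. -/
def IsCoord (γ : Equiv.Perm (ℕ → Bool)) (h : Equiv.Perm ℕ) (r : ℕ → Bool) : Prop :=
  ∀ x q, γ x q = xor (x (h q)) (r q)

/-- The positions of one of the players: the even ones for `b = 0`, the odd ones for `b = 1`. -/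
def side (b : ℕ) : Set ℕ := {q | q % 2 = b}

/-- There are no two almost disjoint images of the set of positions of one player which are both
almost contained in this set. -/
def NonParadoxical (Γ : Subgroup (Equiv.Perm (ℕ → Bool))) : Prop :=
  ∀ γ ∈ Γ, ∀ γ' ∈ Γ, ∀ h h' r r', IsCoord γ h r → IsCoord γ' h' r' → ∀ b < 2,
    (h '' side b \ side b).Finite → (h' '' side b \ side b).Finite →
      (h '' side b ∩ h' '' side b).Infinite

theorem IsCoord.flip_eq {γ : Equiv.Perm (ℕ → Bool)} {h h' : Equiv.Perm ℕ} {r r' : ℕ → Bool}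
    (H : IsCoord γ h r) (H' : IsCoord γ h' r') : r = r' := by
  funext q
  have h1 := H (fun _ => false) q
  have h2 := H' (fun _ => false) q
  rw [h1] at h2
  simpa using h2

theorem IsCoord.perm_eq {γ : Equiv.Perm (ℕ → Bool)} {h h' : Equiv.Perm ℕ} {r r' : ℕ → Bool}
    (H : IsCoord γ h r) (H' : IsCoord γ h' r') : h = h' := by
  refine Equiv.ext fun q => ?_
  have h1 := H (fun p => decide (p = h q)) q
  have h2 := H' (fun p => decide (p = h q)) q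
  rw [h1, H.flip_eq H'] at h2
  have h4 : (true : Bool) = decide (h' q = h q) := by
    have h5 : ∀ a b c : Bool, xor a c = xor b c → a = b := by decide
    have h6 := h5 _ _ _ h2
    simpa using h6
  exact (of_decide_eq_true h4.symm).symm

theorem IsCoord.mul {γ δ : Equiv.Perm (ℕ → Bool)} {h h' : Equiv.Perm ℕ} {r r' : ℕ → Bool}
    (H : IsCoord γ h r) (H' : IsCoord δ h' r') :
    IsCoord (γ * δ) (h' * h) (fun q => xor (r' (h q)) (r q)) := by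
  intro x q
  rw [Equiv.Perm.mul_apply, H, H', Equiv.Perm.mul_apply, Bool.xor_assoc]

/-- The player `b` respects the fixed bits of the labelling in `y`. -/
def Hon (l : ℕ → Bool ⊕ ℕ) (b : ℕ) (y : ℕ → Bool) : Prop :=
  ∀ q, q % 2 = b → ∀ a, l q = Sum.inl a → y q = a

/-- From the position `N` on, all bits of `y` in the column `m` are `a`. -/
def LimFrom (l : ℕ → Bool ⊕ ℕ) (m N : ℕ) (a : Bool) (y : ℕ → Bool) : Prop :=
  ∀ q, N ≤ q → q % 2 = m % 2 → l q = Sum.inr (m / 2) → y q = a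

/-- The coded value of the move number `m` is `a`. -/
def Val (Γ : Subgroup (Equiv.Perm (ℕ → Bool))) (l : ℕ → Bool ⊕ ℕ) (x : ℕ → Bool) (m : ℕ)
    (a : Bool) : Prop :=
  ∃ γ ∈ Γ, ∃ N, Hon l (m % 2) (γ x) ∧ LimFrom l m N a (γ x)

/-- The requirements on the labelling. -/
structure Labels (Γ : Subgroup (Equiv.Perm (ℕ → Bool))) (l : ℕ → Bool ⊕ ℕ) : Prop where
  coord : ∀ γ ∈ Γ, ∃ h r, IsCoord γ h r
  clash : ∀ γ ∈ Γ, ∀ h r, IsCoord γ h r → ∀ b b',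
    {q | q % 2 = b ∧ h q % 2 = b' ∧ ¬(h q = q ∧ r q = false)}.Infinite →
      ∃ q a a', q % 2 = b ∧ h q % 2 = b' ∧ l q = Sum.inl a ∧ l (h q) = Sum.inl a' ∧
        a ≠ xor a' (r q)
  meet : ∀ γ ∈ Γ, ∀ h r, IsCoord γ h r → ∀ b k,
    {q | q % 2 = b ∧ h q = q ∧ r q = false}.Infinite →
      ∀ N, ∃ q, N ≤ q ∧ q % 2 = b ∧ h q = q ∧ r q = false ∧ l q = Sum.inr k

theorem exists_lab (Γ : Subgroup (Equiv.Perm (ℕ → Bool))) [Countable Γ]
    (hΓ : ∀ γ ∈ Γ, ∃ h r, IsCoord γ h r) : ∃ l, Labels Γ l := by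
  choose H R hHR using fun γ : Γ => hΓ γ.1 γ.2
  obtain ⟨l, h1, h2⟩ := exists_labels (Γ := Γ) H R
  refine ⟨l, hΓ, fun γ hγ h r hc b b' hinf => ?_, fun γ hγ h r hc b k hinf => ?_⟩
  · have e1 := hc.perm_eq (hHR ⟨γ, hγ⟩)
    have e2 := hc.flip_eq (hHR ⟨γ, hγ⟩)
    subst e1 e2
    exact h1 ⟨γ, hγ⟩ b b' hinf
  · have e1 := hc.perm_eq (hHR ⟨γ, hγ⟩)
    have e2 := hc.flip_eq (hHR ⟨γ, hγ⟩)
    subst e1 e2
    exact h2 ⟨γ, hγ⟩ b k hinf

theorem finite_out {Γ : Subgroup (Equiv.Perm (ℕ → Bool))} {l : ℕ → Bool ⊕ ℕ} (hl : Labels Γ l)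
    {b c : ℕ} (hb : b < 2) (hc : c < 2) (hbc : b ≠ c) {α : Equiv.Perm (ℕ → Bool)} (hα : α ∈ Γ)
    {h : Equiv.Perm ℕ} {r : ℕ → Bool} (hcoord : IsCoord α h r) {y : ℕ → Bool}
    (h1 : Hon l b (α y)) (h2 : Hon l c y) : (h '' side b \ side b).Finite := by
  by_contra hinf
  have h3 : {q | q % 2 = b ∧ h q % 2 = c ∧ ¬(h q = q ∧ r q = false)}.Infinite := by
    intro hfin
    refine hinf ((hfin.image h).subset ?_)
    rintro _ ⟨⟨q, hq, rfl⟩, hq'⟩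
    have hq : q % 2 = b := hq
    have hq' : ¬ h q % 2 = b := hq'
    refine ⟨q, ⟨hq, by omega, fun h4 => hq' ?_⟩, rfl⟩
    rw [h4.1]
    exact hq
  obtain ⟨q, a, a', h4, h5, h6, h7, h8⟩ := hl.clash α hα h r hcoord b c h3
  apply h8
  rw [← h1 q h4 a h6, hcoord, h2 _ h5 a' h7]

/-- The coded moves are unique if both players respect the fixed bits somewhere. -/
theorem val_unique {Γ : Subgroup (Equiv.Perm (ℕ → Bool))} {l : ℕ → Bool ⊕ ℕ} (hl : Labels Γ l)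
    (hN : NonParadoxical Γ) {x : ℕ → Bool} {m : ℕ} {a a' : Bool} (h1 : Val Γ l x m a)
    (h2 : Val Γ l x m a') {c : ℕ} (hc : c < 2) (hmc : m % 2 ≠ c) {δ : Equiv.Perm (ℕ → Bool)}
    (hδ : δ ∈ Γ) (h3 : Hon l c (δ x)) : a = a' := by
  obtain ⟨γ₁, hγ₁, N₁, hon₁, lim₁⟩ := h1
  obtain ⟨γ₂, hγ₂, N₂, hon₂, lim₂⟩ := h2
  have hb : m % 2 < 2 := Nat.mod_lt _ (by norm_num)
  generalize hbm : m % 2 = b at *
  have hα₁ : γ₁ * δ⁻¹ ∈ Γ := Γ.mul_mem hγ₁ (Γ.inv_mem hδ)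
  have hα₂ : γ₂ * δ⁻¹ ∈ Γ := Γ.mul_mem hγ₂ (Γ.inv_mem hδ)
  have e₁ : (γ₁ * δ⁻¹) (δ x) = γ₁ x := by simp
  have e₂ : (γ₂ * δ⁻¹) (δ x) = γ₂ x := by simp
  obtain ⟨g₁, r₁, c₁⟩ := hl.coord _ hα₁
  obtain ⟨g₂, r₂, c₂⟩ := hl.coord _ hα₂
  have f₁ := finite_out hl hb hc hmc hα₁ c₁ (by rw [e₁]; exact hon₁) h3
  have f₂ := finite_out hl hb hc hmc hα₂ c₂ (by rw [e₂]; exact hon₂) h3
  have hinf := hN _ hα₁ _ hα₂ g₁ g₂ r₁ r₂ c₁ c₂ b hb f₁ f₂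
  have hβ : γ₂ * γ₁⁻¹ ∈ Γ := Γ.mul_mem hγ₂ (Γ.inv_mem hγ₁)
  obtain ⟨g, r, cβ⟩ := hl.coord _ hβ
  have hg : g₂ = g₁ * g := by
    refine IsCoord.perm_eq c₂ (r' := fun q => xor (r₁ (g q)) (r q)) ?_
    have h4 : γ₂ * δ⁻¹ = (γ₂ * γ₁⁻¹) * (γ₁ * δ⁻¹) := by group
    rw [h4]
    exact cβ.mul c₁
  have hinf2 : {q | q % 2 = b ∧ g q % 2 = b}.Infinite := by
    intro hfin
    refine hinf ((hfin.image g₂).subset ?_)
    rintro p ⟨⟨q₁, hq₁, rfl⟩, ⟨q₂, hq₂, h5⟩⟩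
    refine ⟨q₂, ⟨hq₂, ?_⟩, h5⟩
    rw [hg, Equiv.Perm.mul_apply] at h5
    rw [g₁.injective h5]
    exact hq₁
  have hfin3 : {q | q % 2 = b ∧ g q % 2 = b ∧ ¬(g q = q ∧ r q = false)}.Finite := by
    by_contra hinf3
    obtain ⟨q, a₁, a₂, h4, h5, h6, h7, h8⟩ := hl.clash _ hβ g r cβ b b hinf3
    apply h8
    have e₃ : (γ₂ * γ₁⁻¹) (γ₁ x) = γ₂ x := by simp
    have h9 := hon₂ q h4 a₁ h6
    rw [← e₃, cβ, hon₁ _ h5 a₂ h7] at h9
    exact h9.symm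
  have hinf4 : {q | q % 2 = b ∧ g q = q ∧ r q = false}.Infinite := by
    intro hfin4
    refine hinf2 ((hfin3.union hfin4).subset ?_)
    rintro q ⟨h4, h5⟩
    by_cases h6 : g q = q ∧ r q = false
    · exact Or.inr ⟨h4, h6⟩
    · exact Or.inl ⟨h4, h5, h6⟩
  obtain ⟨q, h4, h5, h6, h7, h8⟩ := hl.meet _ hβ g r cβ b (m / 2) hinf4 (max N₁ N₂)
  have e₃ : (γ₂ * γ₁⁻¹) (γ₁ x) = γ₂ x := by simp
  have h9 := lim₁ q (le_trans (le_max_left _ _) h4) (by rw [h5, hbm]) h8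
  have h10 := lim₂ q (le_trans (le_max_right _ _) h4) (by rw [h5, hbm]) h8
  rw [← e₃, cβ, h6, h7, h9] at h10
  simpa using h10

end Pool.Agent.Q202.IDet
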