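import Pool.Agent.Q202.IDet.Game

set_option autoImplicit false

namespace Pool.Agent.Q202.IDet

open Pool.Agent.H685R3

variable {Γ : Subgroup (Equiv.Perm (ℕ → Bool))} {l : ℕ → Bool ⊕ ℕ}

/-- The plays which extend the first `n` moves of `x`, follow `s` afterwards at the positions of
the player `b`, and obey the constraints `κ` at the other positions. -/
def Pl (s : List Bool → Bool) (b : ℕ) (κ : ℕ → Option Bool) (x : ℕ → Bool) (n : ℕ) :
    Set (ℕ → Bool) :=
  {z | (∀ i < n, z i = x i) ∧ (∀ q, n ≤ q → q % 2 = b → z q = s (hist z q)) ∧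
    ∀ q, n ≤ q → q % 2 ≠ b → ∀ a, κ q = some a → z q = a}

theorem pl_nonempty (s : List Bool → Bool) (b : ℕ) (κ : ℕ → Option Bool) (x : ℕ → Bool) (n : ℕ) :
    (Pl s b κ x n).Nonempty := by
  classical
  obtain ⟨z, hz⟩ := exists_play fun L => if L.length < n then x L.length else
    if L.length % 2 = b then s L else (κ L.length).getD false
  refine ⟨z, fun i hi => ?_, fun q hq h => ?_, fun q hq h a ha => ?_⟩
  · rw [hz i, hist_length, if_pos hi]
  · conv_lhs => rw [hz q, hist_length, if_neg (not_lt.2 hq), if_pos h]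
  · rw [hz q, hist_length, if_neg (not_lt.2 hq), if_neg h, ha]
    rfl

theorem pl_closed (s : List Bool → Bool) (b : ℕ) (κ : ℕ → Option Bool) (x : ℕ → Bool) (n : ℕ) :
    IsClosed (Pl s b κ x n) := by
  have h1 : Pl s b κ x n = (⋂ i, ⋂ (_ : i < n), {z : ℕ → Bool | z i = x i}) ∩
      ((⋂ q, ⋂ (_ : n ≤ q), ⋂ (_ : q % 2 = b), {z : ℕ → Bool | z q = s (hist z q)}) ∩
      ⋂ q, ⋂ (_ : n ≤ q), ⋂ (_ : q % 2 ≠ b), ⋂ a, ⋂ (_ : κ q = some a),
        {z : ℕ → Bool | z q = a}) := by
    ext z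
    simp [Pl]
  rw [h1]
  refine (isClosed_iInter fun i => isClosed_iInter fun _ => ?_).inter
    ((isClosed_iInter fun q => isClosed_iInter fun _ => isClosed_iInter fun _ => ?_).inter
    (isClosed_iInter fun q => isClosed_iInter fun _ => isClosed_iInter fun _ =>
      isClosed_iInter fun a => isClosed_iInter fun _ => ?_))
  · exact isClosed_eq (continuous_apply i) continuous_const
  · refine closed_of_det (q + 1) fun z z' h hz => ?_
    have h2 : z q = s (hist z q) := hz
    change z' q = s (hist z' q)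
    rw [← h q (Nat.lt_succ_self q), h2]
    congr 1
    exact hist_congr fun i hi => h i (by omega)
  · exact isClosed_eq (continuous_apply q) continuous_const

theorem pl_sub {s : List Bool → Bool} {b : ℕ} {κ : ℕ → Option Bool} {x x₁ : ℕ → Bool}
    {n n₁ : ℕ} (h : x₁ ∈ Pl s b κ x n) (hn : n ≤ n₁) : Pl s b κ x₁ n₁ ⊆ Pl s b κ x n := by
  obtain ⟨h1, h2, h3⟩ := h
  rintro z ⟨h4, h5, h6⟩
  refine ⟨fun i hi => by rw [h4 i (lt_of_lt_of_le hi hn), h1 i hi], fun q hq hb => ?_,
    fun q hq hb a ha => ?_⟩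
  · rcases lt_or_ge q n₁ with h7 | h7
    · rw [h4 q h7, h2 q hq hb]
      congr 1
      exact hist_congr fun i hi => (h4 i (by omega)).symm
    · exact h5 q h7 hb
  · rcases lt_or_ge q n₁ with h7 | h7
    · rw [h4 q h7, h3 q hq hb a ha]
    · exact h6 q h7 hb a ha

theorem pl_mono {s : List Bool → Bool} {b : ℕ} {κ κ' : ℕ → Option Bool} {x : ℕ → Bool} {n : ℕ}
    (h : ∀ q a, q % 2 ≠ b → κ q = some a → κ' q = some a) :
    Pl s b κ' x n ⊆ Pl s b κ x n := by
  rintro z ⟨h4, h5, h6⟩
  exact ⟨h4, h5, fun q hq hb a ha => h6 q hq hb a (h q a hb ha)⟩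

/-- If the move `m` is defined in all plays of a set `Pl`, then it has a fixed value in all plays
of a smaller set of this form. -/
theorem freeze [Countable Γ] (hl : Labels Γ l) {s : List Bool → Bool} {b m : ℕ}
    {κ : ℕ → Option Bool} {x : ℕ → Bool} {n : ℕ} (h : ∀ z ∈ Pl s b κ x n, Dfd Γ l z m) :
    ∃ t : (ℕ → Bool) × ℕ × Bool, t.1 ∈ Pl s b κ x n ∧ n ≤ t.2.1 ∧
      ∀ z ∈ Pl s b κ t.1 t.2.1, Val Γ l z m t.2.2 := by
  have hcl := pl_closed s b κ x n
  have : CompactSpace (Pl s b κ x n) := isCompact_iff_compactSpace.1 hcl.isCompact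
  have : Nonempty (Pl s b κ x n) := (pl_nonempty s b κ x n).to_subtype
  let f : Γ × ℕ × Bool → Set (Pl s b κ x n) := fun i => {z | z.1 ∈ Cset l m i.1.1 i.2.1 i.2.2}
  have hf : ∀ i, IsClosed (f i) := fun i =>
    (closed_cset hl i.1.2 m i.2.1 i.2.2).preimage continuous_subtype_val
  have hU : ⋃ i, f i = Set.univ := by
    refine Set.eq_univ_of_forall fun z => ?_
    obtain ⟨a, γ, hγ, N, h1, h2⟩ := h z.1 z.2
    exact Set.mem_iUnion.2 ⟨(⟨γ, hγ⟩, N, a), h1, h2⟩
  obtain ⟨i, x₁, hx₁⟩ := nonempty_interior_of_iUnion_of_closed hf hU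
  obtain ⟨V, hV1, hV2, hV3⟩ := mem_interior.1 hx₁
  obtain ⟨U, hU1, hU2⟩ := isOpen_induced_iff.1 hV2
  have hxU : x₁.1 ∈ U := by
    have : x₁ ∈ Subtype.val ⁻¹' U := by rw [hU2]; exact hV3
    exact this
  obtain ⟨k, hk⟩ := cyl_of_open hU1 hxU
  refine ⟨(x₁.1, max n k, i.2.2), x₁.2, le_max_left _ _, fun z hz => ?_⟩
  have h5 : z ∈ Pl s b κ x n := pl_sub x₁.2 (le_max_left _ _) hz
  have h6 : z ∈ U := hk z fun j hj => hz.1 j (lt_of_lt_of_le hj (le_max_right _ _))
  have h7 : (⟨z, h5⟩ : Pl s b κ x n) ∈ V := by rw [← hU2]; exact h6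
  have h8 := hV1 h7
  exact ⟨i.1.1, i.1.2, i.2.1, h8.1, h8.2⟩

/-- The constraints: the fixed bits, and the moves before `m` of the play `y`. -/
def kap (l : ℕ → Bool ⊕ ℕ) (y : ℕ → Bool) (m q : ℕ) : Option Bool :=
  match l q with
  | Sum.inl a => some a
  | Sum.inr k => if 2 * k + q % 2 < m then some (y (2 * k + q % 2)) else none

theorem kap_mono {y : ℕ → Bool} {m q : ℕ} {a : Bool} (h : kap l y m q = some a) :
    kap l y (m + 1) q = some a := by
  unfold kap at *
  rcases hq : l q with a' | k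
  · rw [hq] at h
    exact h
  · rw [hq] at h
    simp only at h ⊢
    by_cases h1 : 2 * k + q % 2 < m
    · rw [if_pos h1] at h
      rw [if_pos (by omega)]
      exact h
    · rw [if_neg h1] at h
      exact absurd h (by simp)

theorem kap_congr {y y' : ℕ → Bool} {m : ℕ} (h : ∀ i < m, y i = y' i) :
    kap l y m = kap l y' m := by
  funext q
  unfold kap
  rcases l q with a | k
  · rfl
  · simp only
    by_cases h1 : 2 * k + q % 2 < m
    · rw [if_pos h1, if_pos h1, h _ h1]
    · rw [if_neg h1, if_neg h1]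

open Classical in
/-- A choice of the smaller set and of the fixed value. -/
noncomputable def frz (Γ : Subgroup (Equiv.Perm (ℕ → Bool))) (l : ℕ → Bool ⊕ ℕ)
    (s : List Bool → Bool) (b m : ℕ) (κ : ℕ → Option Bool) (p : (ℕ → Bool) × ℕ) :
    (ℕ → Bool) × ℕ × Bool :=
  if h : ∃ t : (ℕ → Bool) × ℕ × Bool, t.1 ∈ Pl s b κ p.1 p.2 ∧ p.2 ≤ t.2.1 ∧
      ∀ z ∈ Pl s b κ t.1 t.2.1, Val Γ l z m t.2.2 then h.choose else (p.1, p.2, false)

theorem frz_sub (s : List Bool → Bool) (b m : ℕ) (κ : ℕ → Option Bool) (p : (ℕ → Bool) × ℕ) :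
    Pl s b κ (frz Γ l s b m κ p).1 (frz Γ l s b m κ p).2.1 ⊆ Pl s b κ p.1 p.2 := by
  unfold frz
  split_ifs with h
  · exact pl_sub h.choose_spec.1 h.choose_spec.2.1
  · exact subset_rfl

theorem frz_val [Countable Γ] (hl : Labels Γ l) {s : List Bool → Bool} {b m : ℕ}
    {κ : ℕ → Option Bool} {p : (ℕ → Bool) × ℕ} (h : ∀ z ∈ Pl s b κ p.1 p.2, Dfd Γ l z m) :
    ∀ z ∈ Pl s b κ (frz Γ l s b m κ p).1 (frz Γ l s b m κ p).2.1,
      Val Γ l z m (frz Γ l s b m κ p).2.2 := by
  have h1 := freeze hl h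
  unfold frz
  rw [dif_pos h1]
  exact h1.choose_spec.2.2

/-- The simulated position after `m` moves of the play `y`. -/
noncomputable def st (Γ : Subgroup (Equiv.Perm (ℕ → Bool))) (l : ℕ → Bool ⊕ ℕ)
    (s : List Bool → Bool) (b : ℕ) (y : ℕ → Bool) : ℕ → (ℕ → Bool) × ℕ
  | 0 => (fun _ => false, 0)
  | m + 1 =>
    if m % 2 = b then
      ((frz Γ l s b m (kap l y m) (st Γ l s b y m)).1,
        (frz Γ l s b m (kap l y m) (st Γ l s b y m)).2.1)
    else st Γ l s b y m

theorem st_congr {s : List Bool → Bool} {b : ℕ} {y y' : ℕ → Bool} {m : ℕ}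
    (h : ∀ i < m, y i = y' i) : st Γ l s b y m = st Γ l s b y' m := by
  induction m with
  | zero => rfl
  | succ m ih =>
    have h1 : ∀ i < m, y i = y' i := fun i hi => h i (by omega)
    simp only [st]
    rw [ih h1, kap_congr h1]

/-- The plays in the simulated position. -/
def Sim (Γ : Subgroup (Equiv.Perm (ℕ → Bool))) (l : ℕ → Bool ⊕ ℕ) (s : List Bool → Bool)
    (b : ℕ) (y : ℕ → Bool) (m : ℕ) : Set (ℕ → Bool) :=
  Pl s b (kap l y m) (st Γ l s b y m).1 (st Γ l s b y m).2

theorem sim_sub (s : List Bool → Bool) (b : ℕ) (y : ℕ → Bool) (m : ℕ) :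
    Sim Γ l s b y (m + 1) ⊆ Sim Γ l s b y m := by
  have h1 : ∀ q a, q % 2 ≠ b → kap l y m q = some a → kap l y (m + 1) q = some a :=
    fun q a _ h => kap_mono h
  unfold Sim
  refine (pl_mono h1).trans ?_
  by_cases hm : m % 2 = b
  · have : st Γ l s b y (m + 1) = ((frz Γ l s b m (kap l y m) (st Γ l s b y m)).1,
        (frz Γ l s b m (kap l y m) (st Γ l s b y m)).2.1) := by
      simp only [st]
      rw [if_pos hm]
    rw [this]
    exact frz_sub s b m _ _
  · have : st Γ l s b y (m + 1) = st Γ l s b y m := by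
      simp only [st]
      rw [if_neg hm]
    rw [this]

theorem sim_anti (s : List Bool → Bool) (b : ℕ) (y : ℕ → Bool) {m m' : ℕ} (h : m ≤ m') :
    Sim Γ l s b y m' ⊆ Sim Γ l s b y m := by
  induction m', h using Nat.le_induction with
  | base => exact subset_rfl
  | succ m' _ ih => exact (sim_sub s b y m').trans ih

theorem sim_zero {s : List Bool → Bool} {b : ℕ} {y z : ℕ → Bool} {m : ℕ}
    (h : z ∈ Sim Γ l s b y m) :
    (∀ q, q % 2 = b → z q = s (hist z q)) ∧ (∀ c < 2, c ≠ b → Hon l c z) := by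
  have h1 : z ∈ Sim Γ l s b y 0 := sim_anti s b y (Nat.zero_le m) h
  obtain ⟨-, h2, h3⟩ := h1
  refine ⟨fun q hq => h2 q (Nat.zero_le _) hq, fun c hc hcb q hq a ha => ?_⟩
  refine h3 q (Nat.zero_le _) (by omega) a ?_
  unfold kap
  rw [ha]

theorem wn_of_pay [Countable Γ] (hl : Labels Γ l) (hN : NonParadoxical Γ) {b : ℕ} (hb : b < 2)
    {B : Set (ℕ → Bool)} (h : Wn b (Pay Γ l b B)) : Wn b B := by
  obtain ⟨s, hs⟩ := h
  let dec : List Bool → ℕ → Bool := fun L i => L.getD i false
  refine ⟨fun L => (frz Γ l s b L.length (kap l (dec L) L.length)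
    (st Γ l s b (dec L) L.length)).2.2, fun y hy => ?_⟩
  have hy' : ∀ m, m % 2 = b →
      y m = (frz Γ l s b m (kap l y m) (st Γ l s b y m)).2.2 := by
    intro m hm
    have h1 : ∀ i < m, dec (hist y m) i = y i := fun i hi => hist_getD hi
    rw [hy m hm]
    simp only [hist_length]
    rw [kap_congr h1, st_congr h1]
  have hinv : ∀ m, ∀ j < m, ∀ z ∈ Sim Γ l s b y m, Val Γ l z j (y j) := by
    intro m
    induction m with
    | zero => intro j hj; omega
    | succ m ih =>
      intro j hj z hz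
      rcases Nat.lt_succ_iff_lt_or_eq.1 hj with h1 | rfl
      · exact ih j h1 z (sim_sub s b y m hz)
      by_cases hm : j % 2 = b
      · have h2 : ∀ w ∈ Pl s b (kap l y j) (st Γ l s b y j).1 (st Γ l s b y j).2,
            Dfd Γ l w j := by
          intro w hw
          by_contra h3
          have h4 : w ∈ Lose Γ l b := ⟨j, hm, h3, fun i hi => ⟨_, ih i hi w hw⟩⟩
          rcases hs w (sim_zero (m := j) hw).1 with h5 | h5
          · exact lose_disj hb h4 h5
          · exact lose_full h4 h5.1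
        rw [hy' j hm]
        refine frz_val hl h2 z ?_
        have h6 : st Γ l s b y (j + 1) = ((frz Γ l s b j (kap l y j) (st Γ l s b y j)).1,
            (frz Γ l s b j (kap l y j) (st Γ l s b y j)).2.1) := by
          simp only [st]
          rw [if_pos hm]
        have h7 : z ∈ Pl s b (kap l y (j + 1)) (st Γ l s b y (j + 1)).1
          (st Γ l s b y (j + 1)).2 := hz
        rw [h6] at h7
        exact pl_mono (fun q a _ h => kap_mono h) h7
      · have h6 : st Γ l s b y (j + 1) = st Γ l s b y j := by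
          simp only [st]
          rw [if_neg hm]
        have h7 : z ∈ Pl s b (kap l y (j + 1)) (st Γ l s b y (j + 1)).1
          (st Γ l s b y (j + 1)).2 := hz
        rw [h6] at h7
        refine ⟨1, Γ.one_mem, (st Γ l s b y j).2, ?_, ?_⟩
        · exact (sim_zero hz).2 _ (Nat.mod_lt _ (by norm_num)) hm
        · intro q hq hqm hlq
          refine h7.2.2 q hq (by omega) (y j) ?_
          have h8 : 2 * (j / 2) + q % 2 = j := by omega
          unfold kap
          rw [hlq]
          simp only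
          rw [h8, if_pos (Nat.lt_succ_self j)]
  obtain ⟨z, hz⟩ : (⋂ m, Sim Γ l s b y m).Nonempty := by
    refine IsCompact.nonempty_iInter_of_sequence_nonempty_isCompact_isClosed _
      (fun m => sim_sub s b y m) (fun m => pl_nonempty _ _ _ _ _)
      (pl_closed _ _ _ _ _).isCompact (fun m => pl_closed _ _ _ _ _)
  have hz' : ∀ m, z ∈ Sim Γ l s b y m := fun m => Set.mem_iInter.1 hz m
  have hval : ∀ j, Val Γ l z j (y j) := fun j => hinv (j + 1) j (Nat.lt_succ_self j) z (hz' _)
  have hfull : z ∈ Full Γ l := fun j => ⟨_, hval j⟩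
  have hrd : rd Γ l z = y := by
    funext j
    obtain ⟨δ, hδ, -, h1, -⟩ := hval (j + 1)
    cases hyj : y j with
    | true =>
      have h2 := hval j
      rw [hyj] at h2
      simpa [rd] using h2
    | false =>
      have h2 := hval j
      rw [hyj] at h2
      have h3 : ¬ Val Γ l z j true := fun h4 => by
        have := val_unique hl hN h4 h2 (Nat.mod_lt (j + 1) (by norm_num)) (by omega) hδ h1
        exact absurd this (by simp)
      simpa [rd] using h3
  rcases hs z (sim_zero (hz' 0)).1 with h5 | h5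
  · exact absurd hfull (lose_full h5)
  · rw [← hrd]
    exact h5.2

end Pool.Agent.Q202.IDet
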