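import Pool.Agent.Q202.IDet.Extract

set_option autoImplicit false

namespace Pool.Agent.Q202.IDet

open Pool.Agent.H685R3

variable {Γ : Subgroup (Equiv.Perm (ℕ → Bool))} {l : ℕ → Bool ⊕ ℕ}

/-- The play in which the player `b` follows `σ` and the opponent plays the moves of `g`. -/
theorem exists_resp (σ : List Bool → Bool) (b : ℕ) (g : ℕ → Bool) :
    ∃ z : ℕ → Bool, (∀ q, q % 2 = b → z q = σ (hist z q)) ∧ ∀ q, q % 2 ≠ b → z q = g q := by
  classical
  obtain ⟨z, hz⟩ := exists_play fun L => if L.length % 2 = b then σ L else g L.length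
  refine ⟨z, fun q hq => ?_, fun q hq => ?_⟩
  · conv_lhs => rw [hz q, hist_length, if_pos hq]
  · rw [hz q, hist_length, if_neg hq]

noncomputable def resp (σ : List Bool → Bool) (b : ℕ) (g : ℕ → Bool) : ℕ → Bool :=
  (exists_resp σ b g).choose

theorem resp_own (σ : List Bool → Bool) (b : ℕ) (g : ℕ → Bool) (q : ℕ) (h : q % 2 = b) :
    resp σ b g q = σ (hist (resp σ b g) q) := (exists_resp σ b g).choose_spec.1 q h

theorem resp_opp (σ : List Bool → Bool) (b : ℕ) (g : ℕ → Bool) (q : ℕ) (h : q % 2 ≠ b) :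
    resp σ b g q = g q := (exists_resp σ b g).choose_spec.2 q h

theorem resp_congr {σ : List Bool → Bool} {b : ℕ} {g g' : ℕ → Bool} {m : ℕ}
    (h : ∀ j < m, j % 2 ≠ b → g j = g' j) (q : ℕ) (hq : q ≤ m) (hq' : q < m ∨ q % 2 = b) :
    resp σ b g q = resp σ b g' q := by
  induction q using Nat.strong_induction_on with
  | _ q ih =>
    by_cases hb : q % 2 = b
    · rw [resp_own σ b g q hb, resp_own σ b g' q hb]
      congr 1
      exact hist_congr fun i hi => ih i hi (by omega) (Or.inl (by omega))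
    · rw [resp_opp σ b g q hb, resp_opp σ b g' q hb]
      exact h q (by omega) hb

/-- The guess of the value of the move `j`, from a history. -/
theorem exists_guess [Countable Γ] (hl : Labels Γ l) :
    ∃ guess : ℕ → List Bool → Bool, ∀ (x : ℕ → Bool) (j : ℕ), Dfd Γ l x j →
      ∃ v, Val Γ l x j v ∧ ∃ n₀, ∀ n, n₀ ≤ n → guess j (hist x n) = v := by
  classical
  obtain ⟨e, he⟩ := exists_surjective_nat (Γ × ℕ × Bool)
  let C : ℕ → ℕ → Set (ℕ → Bool) := fun i j => Cset l j (e i).1.1 (e i).2.1 (e i).2.2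
  have hC : ∀ i j, IsClosed (C i j) := fun i j => closed_cset hl (e i).1.2 j _ _
  refine ⟨fun j L => if h : ∃ i, ∃ z, hist z L.length = L ∧ z ∈ C i j then
    (e (Nat.find h)).2.2 else false, fun x j hx => ?_⟩
  have hex : ∃ i, x ∈ C i j := by
    obtain ⟨a, γ, hγ, N, h1, h2⟩ := hx
    obtain ⟨i, hi⟩ := he (⟨γ, hγ⟩, N, a)
    refine ⟨i, ?_⟩
    change x ∈ Cset l j (e i).1.1 (e i).2.1 (e i).2.2
    rw [hi]
    exact ⟨h1, h2⟩
  have hi₀ := Nat.find_spec hex
  have hmin : ∀ i < Nat.find hex, x ∉ C i j := fun i hi => Nat.find_min hex hi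
  refine ⟨(e (Nat.find hex)).2.2, ⟨_, (e (Nat.find hex)).1.2, _, hi₀.1, hi₀.2⟩, ?_⟩
  have h1 : ∀ i, ∃ n, i < Nat.find hex → ∀ z : ℕ → Bool, (∀ k < n, z k = x k) → z ∉ C i j := by
    intro i
    by_cases hi : i < Nat.find hex
    · obtain ⟨n, hn⟩ := cyl_of_open (hC i j).isOpen_compl (hmin i hi)
      exact ⟨n, fun _ z hz => hn z hz⟩
    · exact ⟨0, fun h => absurd h hi⟩
  choose N hN using h1
  refine ⟨(Finset.range (Nat.find hex)).sup N, fun n hn => ?_⟩
  have h2 : ∃ i, ∃ z, hist z (hist x n).length = hist x n ∧ z ∈ C i j :=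
    ⟨Nat.find hex, x, by rw [hist_length], hi₀⟩
  have h3 : Nat.find h2 = Nat.find hex := by
    rw [Nat.find_eq_iff]
    refine ⟨⟨x, by rw [hist_length], hi₀⟩, fun i hi => ?_⟩
    rintro ⟨z, hz1, hz2⟩
    rw [hist_length, hist_eq_iff] at hz1
    refine hN i hi z (fun k hk => hz1 k ?_) hz2
    exact lt_of_lt_of_le hk ((Finset.le_sup (f := N) (Finset.mem_range.2 hi)).trans hn)
  simp only
  rw [dif_pos h2, h3]

theorem pay_of_wn [Countable Γ] (hl : Labels Γ l) (hN : NonParadoxical Γ) {b : ℕ} (hb : b < 2)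
    {B : Set (ℕ → Bool)} (h : Wn b B) : Wn b (Pay Γ l b B) := by
  classical
  obtain ⟨σ, hσ⟩ := h
  obtain ⟨guess, hg⟩ := exists_guess (Γ := Γ) hl
  let s : List Bool → Bool := fun L => match l L.length with
    | Sum.inl a => a
    | Sum.inr k => resp σ b (fun j => guess j L) (2 * k + b)
  refine ⟨s, fun x hx => ?_⟩
  have hon : Hon l b x := by
    intro q hq a ha
    rw [hx q hq]
    simp only [s, hist_length]
    rw [ha]
  have hv : ∀ j, ∃ v, Dfd Γ l x j → (Val Γ l x j v ∧ ∃ n₀, ∀ n, n₀ ≤ n →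
      guess j (hist x n) = v) := by
    intro j
    by_cases h : Dfd Γ l x j
    · obtain ⟨v, h1, h2⟩ := hg x j h
      exact ⟨v, fun _ => ⟨h1, h2⟩⟩
    · exact ⟨false, fun h' => absurd h' h⟩
  choose v hv using hv
  have hn : ∀ j, ∃ n₀, Dfd Γ l x j → ∀ n, n₀ ≤ n → guess j (hist x n) = v j := by
    intro j
    by_cases h : Dfd Γ l x j
    · obtain ⟨n₀, hn₀⟩ := (hv j h).2
      exact ⟨n₀, fun _ => hn₀⟩
    · exact ⟨0, fun h' => absurd h' h⟩
  choose n₀ hn₀ using hn
  set y := resp σ b v with hy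
  have hyB : y ∈ B := hσ y fun q hq => resp_own σ b v q hq
  have own : ∀ m, m % 2 = b → (∀ j < m, j % 2 ≠ b → Dfd Γ l x j) → Val Γ l x m (y m) := by
    intro m hm hj
    refine ⟨1, Γ.one_mem, (Finset.range m).sup n₀, by rw [hm]; exact hon, ?_⟩
    intro q hq hqm hlq
    change x q = y m
    rw [hx q (by rw [hqm, hm])]
    simp only [s, hist_length]
    rw [hlq]
    simp only
    have h1 : 2 * (m / 2) + b = m := by omega
    rw [h1]
    refine resp_congr (m := m) (fun j hjm hjb => ?_) m le_rfl (Or.inr hm)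
    exact hn₀ j (hj j hjm hjb) q ((Finset.le_sup (f := n₀) (Finset.mem_range.2 hjm)).trans hq)
  by_cases hall : ∀ j, j % 2 ≠ b → Dfd Γ l x j
  · right
    have hval : ∀ m, Val Γ l x m (y m) := by
      intro m
      by_cases hm : m % 2 = b
      · exact own m hm fun j _ hj => hall j hj
      · rw [hy, resp_opp σ b v m hm]
        exact (hv m (hall m hm)).1
    refine ⟨fun m => ⟨_, hval m⟩, ?_⟩
    have hrd : rd Γ l x = y := by
      funext j
      obtain ⟨δ, hδ, -, h1, -⟩ := hval (j + 1)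
      have h2 := hval j
      cases hyj : y j with
      | true =>
        rw [hyj] at h2
        simpa [rd] using h2
      | false =>
        rw [hyj] at h2
        have h3 : ¬ Val Γ l x j true := fun h4 => by
          have := val_unique hl hN h4 h2 (Nat.mod_lt (j + 1) (by norm_num)) (by omega) hδ h1
          exact absurd this (by simp)
        simpa [rd] using h3
    rw [hrd]
    exact hyB
  · left
    push Not at hall
    have h1 := Nat.find_spec hall
    have h2 : ∀ j < Nat.find hall, j % 2 ≠ b → Dfd Γ l x j := by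
      intro j hj hjb
      by_contra h3
      exact Nat.find_min hall hj ⟨hjb, h3⟩
    refine ⟨Nat.find hall, by omega, h1.2, fun j hj => ?_⟩
    by_cases hjb : j % 2 = b
    · exact ⟨_, own j hjb fun i hi hib => h2 i (by omega) hib⟩
    · exact h2 j hj hjb

end Pool.Agent.Q202.IDet
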