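import Pool.Agent.Q202.IDet.Defs

set_option autoImplicit false

namespace Pool.Agent.Q202.IDet

open Pool.Agent.H685R3

variable {Γ : Subgroup (Equiv.Perm (ℕ → Bool))} {l : ℕ → Bool ⊕ ℕ}

/-- The move number `m` is defined. -/
def Dfd (Γ : Subgroup (Equiv.Perm (ℕ → Bool))) (l : ℕ → Bool ⊕ ℕ) (x : ℕ → Bool) (m : ℕ) :
    Prop := ∃ a, Val Γ l x m a

open Classical in
/-- The decoded play. -/
noncomputable def rd (Γ : Subgroup (Equiv.Perm (ℕ → Bool))) (l : ℕ → Bool ⊕ ℕ) (x : ℕ → Bool) :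
    ℕ → Bool := fun m => decide (Val Γ l x m true)

/-- The first undefined move exists and belongs to the player `b`. -/
def Lose (Γ : Subgroup (Equiv.Perm (ℕ → Bool))) (l : ℕ → Bool ⊕ ℕ) (b : ℕ) : Set (ℕ → Bool) :=
  {x | ∃ m, m % 2 = b ∧ ¬ Dfd Γ l x m ∧ ∀ j < m, Dfd Γ l x j}

/-- All moves are defined. -/
def Full (Γ : Subgroup (Equiv.Perm (ℕ → Bool))) (l : ℕ → Bool ⊕ ℕ) : Set (ℕ → Bool) :=
  {x | ∀ m, Dfd Γ l x m}

/-- The coded payoff set of the player `b`. -/
def Pay (Γ : Subgroup (Equiv.Perm (ℕ → Bool))) (l : ℕ → Bool ⊕ ℕ) (b : ℕ)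
    (B : Set (ℕ → Bool)) : Set (ℕ → Bool) :=
  Lose Γ l (1 - b) ∪ {x | x ∈ Full Γ l ∧ rd Γ l x ∈ B}

/-- The player moving at the positions congruent to `b` can force the play into `B`. -/
def Wn (b : ℕ) (B : Set (ℕ → Bool)) : Prop :=
  ∃ s : List Bool → Bool, ∀ x : ℕ → Bool, (∀ q, q % 2 = b → x q = s (hist x q)) → x ∈ B

theorem winsI_iff {A : Set (ℕ → Bool)} : WinsI A ↔ Wn 0 A := by
  refine exists_congr fun s => forall_congr' fun x => ?_
  refine imp_congr ⟨fun h q hq => ?_, fun h n => h (2 * n) (by omega)⟩ Iff.rfl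
  have : q = 2 * (q / 2) := by omega
  rw [this]
  exact h _

theorem winsII_iff {A : Set (ℕ → Bool)} : WinsII A ↔ Wn 1 Aᶜ := by
  refine exists_congr fun s => forall_congr' fun x => ?_
  refine imp_congr ⟨fun h q hq => ?_, fun h n => h (2 * n + 1) (by omega)⟩ Iff.rfl
  have : q = 2 * (q / 2) + 1 := by omega
  rw [this]
  exact h _

theorem lose_disj {b : ℕ} {x : ℕ → Bool} (hb : b < 2) (h : x ∈ Lose Γ l b) :
    x ∉ Lose Γ l (1 - b) := by
  rintro ⟨m', h1, h2, h3⟩
  obtain ⟨m, h4, h5, h6⟩ := h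
  rcases lt_trichotomy m m' with h7 | h7 | h7
  · exact h5 (h3 m h7)
  · omega
  · exact h2 (h6 m' h7)

theorem lose_full {b : ℕ} {x : ℕ → Bool} (h : x ∈ Lose Γ l b) : x ∉ Full Γ l := by
  obtain ⟨m, h4, h5, h6⟩ := h
  exact fun h => h5 (h m)

theorem trich (x : ℕ → Bool) : x ∈ Full Γ l ∨ x ∈ Lose Γ l 0 ∨ x ∈ Lose Γ l 1 := by
  classical
  by_cases h : x ∈ Full Γ l
  · exact Or.inl h
  right
  have h1 : ∃ m, ¬ Dfd Γ l x m := by
    by_contra h2
    push Not at h2
    exact h h2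
  have h2 := Nat.find_spec h1
  have h3 : ∀ j < Nat.find h1, Dfd Γ l x j := fun j hj => by
    by_contra h4
    exact Nat.find_min h1 hj h4
  rcases Nat.mod_two_eq_zero_or_one (Nat.find h1) with h4 | h4
  · exact Or.inl ⟨_, h4, h2, h3⟩
  · exact Or.inr ⟨_, h4, h2, h3⟩

theorem pay_compl (A : Set (ℕ → Bool)) : (Pay Γ l 0 A)ᶜ = Pay Γ l 1 Aᶜ := by
  ext x
  simp only [Pay, Set.mem_compl_iff, Set.mem_union, Set.mem_ofPred_eq, Nat.sub_zero, Nat.sub_self]
  rcases trich (Γ := Γ) (l := l) x with h | h | h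
  · have h0 : x ∉ Lose Γ l 0 := fun h' => lose_full h' h
    have h1 : x ∉ Lose Γ l 1 := fun h' => lose_full h' h
    simp [h, h0, h1]
  · have h1 : x ∉ Lose Γ l 1 := lose_disj (b := 0) (by norm_num) h
    have h2 : x ∉ Full Γ l := lose_full h
    simp [h, h1, h2]
  · have h1 : x ∉ Lose Γ l 0 := lose_disj (b := 1) (by norm_num) h
    have h2 : x ∉ Full Γ l := lose_full h
    simp [h, h1, h2]

/-- A play given by its moves as a function of the history. -/
theorem exists_play (f : List Bool → Bool) : ∃ z : ℕ → Bool, ∀ q, z q = f (hist z q) := by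
  let g : ℕ → List Bool := fun n => Nat.rec [] (fun _ L => L ++ [f L]) n
  have hg : ∀ n, hist (fun n => f (g n)) n = g n := by
    intro n
    induction n with
    | zero => rfl
    | succ n ih =>
      have : hist (fun n => f (g n)) (n + 1) = hist (fun n => f (g n)) n ++ [f (g n)] := by
        simp [hist, List.range_succ]
      rw [this, ih]
  exact ⟨fun n => f (g n), fun q => by rw [hg]⟩

theorem hist_congr {x y : ℕ → Bool} {n : ℕ} (h : ∀ i < n, x i = y i) : hist x n = hist y n := by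
  refine List.map_congr_left fun i hi => h i ?_
  simpa using hi

theorem hist_eq_iff {x y : ℕ → Bool} {n : ℕ} : hist x n = hist y n ↔ ∀ i < n, x i = y i := by
  refine ⟨fun h i hi => ?_, hist_congr⟩
  have := List.map_inj_left.1 h i (by simpa using hi)
  exact this

@[simp] theorem hist_length (x : ℕ → Bool) (n : ℕ) : (hist x n).length = n := by simp [hist]

theorem hist_getD {x : ℕ → Bool} {n i : ℕ} (h : i < n) : (hist x n).getD i false = x i := by
  simp [hist, h]

/-- A set which depends on finitely many coordinates is closed. -/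
theorem closed_of_det {S : Set (ℕ → Bool)} (n : ℕ)
    (h : ∀ z z' : ℕ → Bool, (∀ i < n, z i = z' i) → z ∈ S → z' ∈ S) : IsClosed S := by
  have h1 : S = (fun z : ℕ → Bool => fun i : Fin n => z i) ⁻¹'
      ((fun z : ℕ → Bool => fun i : Fin n => z i) '' S) := by
    ext z
    refine ⟨fun hz => ⟨z, hz, rfl⟩, ?_⟩
    rintro ⟨z', hz', h2⟩
    exact h z' z (fun i hi => congrFun h2 ⟨i, hi⟩) hz'
  rw [h1]
  refine IsClosed.preimage (continuous_pi fun i => continuous_apply _) ?_
  exact isClosed_discrete _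

/-- An open set contains a cylinder. -/
theorem cyl_of_open {U : Set (ℕ → Bool)} (hU : IsOpen U) {x : ℕ → Bool} (hx : x ∈ U) :
    ∃ n, ∀ z : ℕ → Bool, (∀ i < n, z i = x i) → z ∈ U := by
  obtain ⟨I, u, h1, h2⟩ := isOpen_pi_iff.1 hU x hx
  refine ⟨I.sup id + 1, fun z hz => h2 fun i hi => ?_⟩
  rw [hz i (Nat.lt_succ_of_le (Finset.le_sup (f := id) hi))]
  exact (h1 i hi).2

theorem IsCoord.continuous {γ : Equiv.Perm (ℕ → Bool)} {h : Equiv.Perm ℕ} {r : ℕ → Bool}
    (H : IsCoord γ h r) : Continuous γ := by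
  refine continuous_pi fun q => ?_
  have : (fun x => γ x q) = (fun a : Bool => xor a (r q)) ∘ fun x : ℕ → Bool => x (h q) := by
    funext x
    exact H x q
  rw [this]
  exact (continuous_of_discreteTopology).comp (continuous_apply _)

theorem closed_hon (b : ℕ) : IsClosed {y : ℕ → Bool | Hon l b y} := by
  have : {y : ℕ → Bool | Hon l b y} =
      ⋂ q, ⋂ (_ : q % 2 = b), ⋂ a, ⋂ (_ : l q = Sum.inl a), {y : ℕ → Bool | y q = a} := by
    ext y
    simp [Hon]
  rw [this]
  refine isClosed_iInter fun q => isClosed_iInter fun _ => isClosed_iInter fun a =>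
    isClosed_iInter fun _ => ?_
  exact isClosed_eq (continuous_apply q) continuous_const

theorem closed_lim (m N : ℕ) (a : Bool) : IsClosed {y : ℕ → Bool | LimFrom l m N a y} := by
  have : {y : ℕ → Bool | LimFrom l m N a y} =
      ⋂ q, ⋂ (_ : N ≤ q), ⋂ (_ : q % 2 = m % 2), ⋂ (_ : l q = Sum.inr (m / 2)),
        {y : ℕ → Bool | y q = a} := by
    ext y
    simp [LimFrom]
  rw [this]
  refine isClosed_iInter fun q => isClosed_iInter fun _ => isClosed_iInter fun _ =>
    isClosed_iInter fun _ => ?_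
  exact isClosed_eq (continuous_apply q) continuous_const

/-- The closed sets whose union is the set of the plays with a defined move `m`. -/
def Cset (l : ℕ → Bool ⊕ ℕ) (m : ℕ) (γ : Equiv.Perm (ℕ → Bool)) (N : ℕ) (a : Bool) :
    Set (ℕ → Bool) := {z | Hon l (m % 2) (γ z) ∧ LimFrom l m N a (γ z)}

theorem closed_cset (hl : Labels Γ l) {γ : Equiv.Perm (ℕ → Bool)} (hγ : γ ∈ Γ) (m N : ℕ)
    (a : Bool) : IsClosed (Cset l m γ N a) := by
  obtain ⟨h, r, H⟩ := hl.coord γ hγ
  exact ((closed_hon (m % 2)).preimage H.continuous).inter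
    ((closed_lim m N a).preimage H.continuous)

end Pool.Agent.Q202.IDet
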