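import Pool.Agent.Q202.IDet.Thompson

set_option autoImplicit false

namespace Pool.Agent.Q202.IDet

open Pool.Agent.H685R3

/-- For all large `N`, at most an eighth of the positions below `N` are moved to positions which
are not below `N`. This holds in particular for the elements of the Lévy group, the group of all
permutations for which the proportion of these positions tends to zero. -/
def SmallFlow (h : Equiv.Perm ℕ) : Prop :=
  ∃ N₀, ∀ N, N₀ ≤ N → 8 * ((Finset.range N).filter fun n => N ≤ h n).card ≤ N

theorem card_side {b : ℕ} (hb : b < 2) (M : ℕ) :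
    ((Finset.range (2 * M)).filter fun n => n % 2 = b).card = M := by
  induction M with
  | zero => simp
  | succ M ih =>
    have h1 : 2 * (M + 1) = 2 * M + 1 + 1 := by ring
    rw [h1, Finset.range_add_one, Finset.range_add_one, Finset.filter_insert, Finset.filter_insert]
    have h2 : ∀ k, k ≥ 2 * M → k ∉ (Finset.range (2 * M)).filter fun n => n % 2 = b := by
      intro k hk hk'
      have := Finset.mem_range.1 (Finset.mem_filter.1 hk').1
      omega
    rcases (by omega : b = 0 ∨ b = 1) with rfl | rfl
    · rw [if_neg (by omega), if_pos (by omega), Finset.card_insert_of_notMem (h2 _ le_rfl), ih]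
    · rw [if_pos (by omega), if_neg (by omega), Finset.card_insert_of_notMem (h2 _ (by omega)), ih]

/-- Groups of permutations with small flow are not paradoxical. -/
theorem nonParadoxical_of_smallFlow {Γ : Subgroup (Equiv.Perm (ℕ → Bool))}
    (hflow : ∀ γ ∈ Γ, ∀ h r, IsCoord γ h r → SmallFlow h) : NonParadoxical Γ := by
  classical
  intro γ hγ γ' hγ' h h' r r' c c' b hb hf hf'
  by_contra hfi
  rw [Set.not_infinite] at hfi
  obtain ⟨N₁, h1⟩ := hflow γ hγ h r c
  obtain ⟨N₂, h2⟩ := hflow γ' hγ' h' r' c'
  set K := hf.toFinset.card + hf'.toFinset.card + hfi.toFinset.card with hK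
  set M := N₁ + N₂ + 2 * K + 1 with hM
  have hA : ∀ h₀ : Equiv.Perm ℕ, 8 * ((Finset.range (2 * M)).filter fun n => 2 * M ≤ h₀ n).card ≤
      2 * M → 3 * M ≤ 4 * ((Finset.range (2 * M)).filter fun p => p ∈ h₀ '' side b).card := by
    intro h₀ hle
    have e1 := card_side hb M
    have e2 : ((Finset.range (2 * M)).filter fun n => n % 2 = b).card ≤
        ((Finset.range (2 * M)).filter fun n => 2 * M ≤ h₀ n).card +
        ((Finset.range (2 * M)).filter fun p => p ∈ h₀ '' side b).card := by
      have e3 : ((Finset.range (2 * M)).filter fun n => n % 2 = b) ⊆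
          ((Finset.range (2 * M)).filter fun n => 2 * M ≤ h₀ n) ∪
          ((Finset.range (2 * M)).filter fun p => p ∈ h₀ '' side b).image h₀.symm := by
        intro n hn
        rw [Finset.mem_filter, Finset.mem_range] at hn
        rw [Finset.mem_union]
        by_cases h3 : 2 * M ≤ h₀ n
        · exact Or.inl (Finset.mem_filter.2 ⟨Finset.mem_range.2 hn.1, h3⟩)
        · refine Or.inr (Finset.mem_image.2 ⟨h₀ n, Finset.mem_filter.2
            ⟨Finset.mem_range.2 (not_le.1 h3), n, hn.2, rfl⟩, by simp⟩)
      exact (Finset.card_le_card e3).trans ((Finset.card_union_le _ _).trans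
        (Nat.add_le_add_left Finset.card_image_le _))
    omega
  have a1 := hA h (h1 (2 * M) (by omega))
  have a2 := hA h' (h2 (2 * M) (by omega))
  have e4 : ((Finset.range (2 * M)).filter fun p => p ∈ h '' side b).card +
      ((Finset.range (2 * M)).filter fun p => p ∈ h' '' side b).card ≤ M + K := by
    have e5 : ((Finset.range (2 * M)).filter fun p => p ∈ h '' side b) ∪
        ((Finset.range (2 * M)).filter fun p => p ∈ h' '' side b) ⊆
        ((Finset.range (2 * M)).filter fun n => n % 2 = b) ∪ (hf.toFinset ∪ hf'.toFinset) := by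
      intro p hp
      simp only [Finset.mem_union, Finset.mem_filter, Set.Finite.mem_toFinset, Set.mem_sdiff] at hp ⊢
      by_cases h3 : p % 2 = b
      · rcases hp with h4 | h4 <;> exact Or.inl ⟨h4.1, h3⟩
      · rcases hp with h4 | h4
        · exact Or.inr (Or.inl ⟨h4.2, h3⟩)
        · exact Or.inr (Or.inr ⟨h4.2, h3⟩)
    have e6 : ((Finset.range (2 * M)).filter fun p => p ∈ h '' side b) ∩
        ((Finset.range (2 * M)).filter fun p => p ∈ h' '' side b) ⊆ hfi.toFinset := by
      intro p hp
      simp only [Finset.mem_inter, Finset.mem_filter, Set.Finite.mem_toFinset,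
        Set.mem_inter_iff] at hp ⊢
      exact ⟨hp.1.2, hp.2.2⟩
    have e7 := Finset.card_union_add_card_inter
      ((Finset.range (2 * M)).filter fun p => p ∈ h '' side b)
      ((Finset.range (2 * M)).filter fun p => p ∈ h' '' side b)
    have e8 := Finset.card_le_card e5
    have e9 := Finset.card_le_card e6
    have e10 := Finset.card_union_le ((Finset.range (2 * M)).filter fun n => n % 2 = b)
      (hf.toFinset ∪ hf'.toFinset)
    have e11 := Finset.card_union_le hf.toFinset hf'.toFinset
    rw [card_side hb M] at e10
    omega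
  omega

end Pool.Agent.Q202.IDet
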