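import Pool.Agent.Q202.IDet.Fwd

set_option autoImplicit false

namespace Pool.Agent.Q202.IDet

open Pool.Agent.H685R3

variable {Γ : Subgroup (Equiv.Perm (ℕ → Bool))} {l : ℕ → Bool ⊕ ℕ}

theorem val_inv {γ : Equiv.Perm (ℕ → Bool)} (hγ : γ ∈ Γ) (x : ℕ → Bool) (m : ℕ) (a : Bool) :
    Val Γ l (γ x) m a ↔ Val Γ l x m a := by
  constructor
  · rintro ⟨δ, hδ, N, h1, h2⟩
    exact ⟨δ * γ, Γ.mul_mem hδ hγ, N, h1, h2⟩
  · rintro ⟨δ, hδ, N, h1, h2⟩
    have h3 : (δ * γ⁻¹) (γ x) = δ x := by simp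
    exact ⟨δ * γ⁻¹, Γ.mul_mem hδ (Γ.inv_mem hγ), N, by rw [h3]; exact h1, by rw [h3]; exact h2⟩

theorem meas_val [Countable Γ] (hl : Labels Γ l) (m : ℕ) (a : Bool) :
    MeasurableSet {x : ℕ → Bool | Val Γ l x m a} := by
  have : {x : ℕ → Bool | Val Γ l x m a} = ⋃ γ : Γ, ⋃ N, Cset l m γ.1 N a := by
    ext x
    simp only [Set.mem_iUnion, Val, Cset, Set.mem_ofPred_eq]
    constructor
    · rintro ⟨γ, hγ, N, h⟩
      exact ⟨⟨γ, hγ⟩, N, h⟩
    · rintro ⟨γ, N, h⟩
      exact ⟨γ.1, γ.2, N, h⟩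
  rw [this]
  exact MeasurableSet.iUnion fun γ => MeasurableSet.iUnion fun N =>
    (closed_cset hl γ.2 m N a).measurableSet

theorem meas_dfd [Countable Γ] (hl : Labels Γ l) (m : ℕ) :
    MeasurableSet {x : ℕ → Bool | Dfd Γ l x m} := by
  have : {x : ℕ → Bool | Dfd Γ l x m} = ⋃ a, {x : ℕ → Bool | Val Γ l x m a} := by
    ext x
    simp [Dfd]
  rw [this]
  exact MeasurableSet.iUnion fun a => meas_val hl m a

theorem meas_full [Countable Γ] (hl : Labels Γ l) : MeasurableSet (Full Γ l) := by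
  have : Full Γ l = ⋂ m, {x : ℕ → Bool | Dfd Γ l x m} := by
    ext x
    simp [Full]
  rw [this]
  exact MeasurableSet.iInter fun m => meas_dfd hl m

theorem meas_lose [Countable Γ] (hl : Labels Γ l) (b : ℕ) : MeasurableSet (Lose Γ l b) := by
  have : Lose Γ l b = ⋃ m, ⋃ (_ : m % 2 = b), ({x : ℕ → Bool | Dfd Γ l x m}ᶜ ∩
      ⋂ j, ⋂ (_ : j < m), {x : ℕ → Bool | Dfd Γ l x j}) := by
    ext x
    simp only [Lose, Set.mem_ofPred_eq, Set.mem_iUnion, Set.mem_inter_iff, Set.mem_compl_iff,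
      Set.mem_iInter, exists_prop]
  rw [this]
  exact MeasurableSet.iUnion fun m => MeasurableSet.iUnion fun _ => (meas_dfd hl m).compl.inter
    (MeasurableSet.iInter fun j => MeasurableSet.iInter fun _ => meas_dfd hl j)

theorem meas_rd [Countable Γ] (hl : Labels Γ l) : Measurable (rd Γ l) := by
  refine measurable_pi_iff.2 fun m => ?_
  refine measurable_to_bool ?_
  have : (fun x => rd Γ l x m) ⁻¹' {true} = {x : ℕ → Bool | Val Γ l x m true} := by
    ext x
    simp [rd]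
  rw [this]
  exact meas_val hl m true

/-- **The game with an arbitrary payoff set is equivalent to one with a payoff set invariant under
a given non-paradoxical countable group of coordinate transformations.** -/
theorem main (Γ : Subgroup (Equiv.Perm (ℕ → Bool))) [Countable Γ]
    (hΓ : ∀ γ ∈ Γ, ∃ h r, IsCoord γ h r) (hN : NonParadoxical Γ) :
    ∃ (W D : Set (ℕ → Bool)) (F : (ℕ → Bool) → ℕ → Bool),
      MeasurableSet W ∧ MeasurableSet D ∧ Measurable F ∧
      (∀ γ ∈ Γ, ∀ x, (γ x ∈ W ↔ x ∈ W) ∧ (γ x ∈ D ↔ x ∈ D) ∧ F (γ x) = F x) ∧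
      ∀ A : Set (ℕ → Bool), (WinsI (W ∪ {x | x ∈ D ∧ F x ∈ A}) ↔ WinsI A) ∧
        (WinsII (W ∪ {x | x ∈ D ∧ F x ∈ A}) ↔ WinsII A) := by
  obtain ⟨l, hl⟩ := exists_lab Γ hΓ
  refine ⟨Lose Γ l 1, Full Γ l, rd Γ l, meas_lose hl 1, meas_full hl, meas_rd hl,
    fun γ hγ x => ?_, fun A => ?_⟩
  · have h1 : ∀ m a, Val Γ l (γ x) m a ↔ Val Γ l x m a := fun m a => val_inv hγ x m a
    have h2 : ∀ m, Dfd Γ l (γ x) m ↔ Dfd Γ l x m := fun m => exists_congr fun a => h1 m a
    refine ⟨?_, forall_congr' h2, ?_⟩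
    · simp only [Lose, Set.mem_ofPred_eq, h2]
    · funext m
      exact decide_eq_decide.2 (h1 m true)
  · have e1 : (Lose Γ l 1 ∪ {x | x ∈ Full Γ l ∧ rd Γ l x ∈ A}) = Pay Γ l 0 A := rfl
    rw [e1]
    refine ⟨?_, ?_⟩
    · rw [winsI_iff, winsI_iff]
      exact ⟨wn_of_pay hl hN (by norm_num), pay_of_wn hl hN (by norm_num)⟩
    · rw [winsII_iff, winsII_iff, pay_compl]
      exact ⟨wn_of_pay hl hN (by norm_num), pay_of_wn hl hN (by norm_num)⟩

/-- Groups which preserve a finitely additive measure on the positions, for which both players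
have positions of positive measure, are not paradoxical. -/
theorem nonParadoxical_of_measure {Γ : Subgroup (Equiv.Perm (ℕ → Bool))} (μ : Set ℕ → ℝ)
    (h0 : ∀ S, 0 ≤ μ S) (hadd : ∀ S T, Disjoint S T → μ (S ∪ T) = μ S + μ T)
    (hfin : ∀ S : Set ℕ, S.Finite → μ S = 0)
    (hinv : ∀ γ ∈ Γ, ∀ h r, IsCoord γ h r → ∀ S : Set ℕ, μ (h '' S) = μ S)
    (hpos : ∀ b < 2, 0 < μ (side b)) : NonParadoxical Γ := by
  intro γ hγ γ' hγ' h h' r r' c c' b hb hf hf'
  by_contra hfi
  rw [Set.not_infinite] at hfi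
  have hmono : ∀ S T : Set ℕ, S ⊆ T → μ S ≤ μ T := by
    intro S T hST
    have : T = S ∪ (T \ S) := (Set.union_sdiff_cancel hST).symm
    rw [this, hadd _ _ Set.disjoint_sdiff_right]
    linarith [h0 (T \ S)]
  have e1 : μ (h '' side b) = μ (side b) := hinv γ hγ h r c _
  have e2 : μ (h' '' side b) = μ (side b) := hinv γ' hγ' h' r' c' _
  have e3 : μ (h' '' side b) = μ (h' '' side b \ h '' side b) := by
    have : h' '' side b = (h' '' side b \ h '' side b) ∪ (h '' side b ∩ h' '' side b) := by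
      ext p
      simp only [Set.mem_union, Set.mem_sdiff, Set.mem_inter_iff]
      tauto
    conv_lhs => rw [this]
    rw [hadd, hfin _ hfi, add_zero]
    exact Set.disjoint_left.2 fun p h1 h2 => h1.2 h2.1
  have e4 : μ (h '' side b ∪ (h' '' side b \ h '' side b)) =
      μ (h '' side b) + μ (h' '' side b \ h '' side b) := hadd _ _ Set.disjoint_sdiff_right
  have e5 : μ (h '' side b ∪ (h' '' side b \ h '' side b)) ≤
      μ (side b ∪ ((h '' side b \ side b) ∪ (h' '' side b \ side b)) ) := by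
    refine hmono _ _ fun p hp => ?_
    simp only [Set.mem_union, Set.mem_sdiff] at hp ⊢
    tauto
  have e6 : μ (side b ∪ ((h '' side b \ side b) ∪ (h' '' side b \ side b))) = μ (side b) := by
    rw [hadd, hfin _ (hf.union hf'), add_zero]
    refine Set.disjoint_left.2 fun p h1 h2 => ?_
    rcases h2 with h2 | h2 <;> exact h2.2 h1
  have := hpos b hb
  linarith

/-- Groups which preserve a linear order of the positions in which the positions of the first
player form an initial segment are not paradoxical. -/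
theorem nonParadoxical_of_order {Γ : Subgroup (Equiv.Perm (ℕ → Bool))} {α : Type}
    [LinearOrder α] (φ : ℕ → α) (hφ : Function.Injective φ)
    (hmono : ∀ γ ∈ Γ, ∀ h r, IsCoord γ h r → ∀ p q, φ p < φ q → φ (h p) < φ (h q))
    (hside : ∀ p q, p % 2 = 0 → q % 2 = 1 → φ p < φ q) : NonParadoxical Γ := by
  intro γ hγ γ' hγ' h h' r r' c c' b hb _ _
  have hle : ∀ h₀ : Equiv.Perm ℕ, (∀ p q, φ p < φ q → φ (h₀ p) < φ (h₀ q)) →
      ∀ p q, φ (h₀ p) < φ (h₀ q) → φ p < φ q := by
    intro h₀ H p q hpq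
    by_contra h1
    rcases (not_lt.1 h1).lt_or_eq with h2 | h2
    · exact absurd hpq (not_lt.2 (H q p h2).le)
    · rw [hφ h2] at hpq
      exact lt_irrefl _ hpq
  have H := hle h (hmono γ hγ h r c)
  have H' := hle h' (hmono γ' hγ' h' r' c')
  have hinf : ∀ b < 2, (side b).Infinite := by
    intro b hb
    refine Set.infinite_of_injective_forall_mem (f := fun n : ℕ => 2 * n + b)
      (fun m n hmn => by simpa using hmn) fun n => ?_
    change (2 * n + b) % 2 = b
    omega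
  have key : h '' side b ⊆ h' '' side b ∨ h' '' side b ⊆ h '' side b := by
    by_contra hcon
    rw [not_or, Set.not_subset, Set.not_subset] at hcon
    obtain ⟨⟨_, ⟨p, hp, rfl⟩, hp'⟩, _, ⟨q, hq, rfl⟩, hq'⟩ := hcon
    obtain ⟨p', hp'e⟩ := h'.surjective (h p)
    obtain ⟨q', hq'e⟩ := h.surjective (h' q)
    have h1 : ¬ p' % 2 = b := fun h1 => hp' ⟨p', h1, hp'e⟩
    have h2 : ¬ q' % 2 = b := fun h2 => hq' ⟨q', h2, hq'e⟩
    have hp : p % 2 = b := hp
    have hq : q % 2 = b := hq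
    rcases (by omega : b = 0 ∨ b = 1) with rfl | rfl
    · have h3 := hmono γ' hγ' h' r' c' q p' (hside q p' hq (by omega))
      have h4 := hmono γ hγ h r c p q' (hside p q' hp (by omega))
      rw [hp'e] at h3
      rw [hq'e] at h4
      exact absurd h3 (not_lt.2 h4.le)
    · have h3 := hmono γ' hγ' h' r' c' p' q (hside p' q (by omega) hq)
      have h4 := hmono γ hγ h r c q' p (hside q' p (by omega) hp)
      rw [hp'e] at h3
      rw [hq'e] at h4
      exact absurd h3 (not_lt.2 h4.le)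
  rcases key with h1 | h1
  · rw [Set.inter_eq_left.2 h1]
    exact (hinf b hb).image h.injective.injOn
  · rw [Set.inter_eq_right.2 h1]
    exact (hinf b hb).image h'.injective.injOn

end Pool.Agent.Q202.IDet
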