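import Pool.Agent.Q202.IDet.Main

set_option autoImplicit false

namespace Pool.Agent.Q202.IDet

open Pool.Agent.H685R3

/-- The permutation `2 m ↦ 4 m`, `4 m + 1 ↦ 4 m + 2`, `4 m + 3 ↦ 2 m + 1` of the positions. -/
def left (n : ℕ) : ℕ := if n % 2 = 0 then 2 * n else if n % 4 = 1 then n + 1 else n / 2

/-- The permutation of the positions which fixes the even positions and acts on the odd ones as
`left`: `2 m + 1 ↦ 2 * left m + 1`. -/
def right (n : ℕ) : ℕ := if n % 2 = 0 then n else 2 * left (n / 2) + 1

def leftInv (n : ℕ) : ℕ := if n % 4 = 0 then n / 2 else if n % 4 = 2 then n - 1 else 2 * n + 1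

def rightInv (n : ℕ) : ℕ := if n % 2 = 0 then n else 2 * leftInv (n / 2) + 1

theorem leftInv_left (n : ℕ) : leftInv (left n) = n := by
  unfold left leftInv
  split_ifs <;> omega

theorem left_leftInv (n : ℕ) : left (leftInv n) = n := by
  unfold left leftInv
  split_ifs <;> omega

theorem rightInv_right (n : ℕ) : rightInv (right n) = n := by
  unfold right rightInv
  by_cases h : n % 2 = 0
  · simp [h]
  · rw [if_neg h, if_neg (by omega)]
    have : (2 * left (n / 2) + 1) / 2 = left (n / 2) := by omega
    rw [this, leftInv_left]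
    omega

theorem right_rightInv (n : ℕ) : right (rightInv n) = n := by
  unfold right rightInv
  by_cases h : n % 2 = 0
  · simp [h]
  · rw [if_neg h, if_neg (by omega)]
    have : (2 * leftInv (n / 2) + 1) / 2 = leftInv (n / 2) := by omega
    rw [this, left_leftInv]
    omega

def leftE : Equiv.Perm ℕ := ⟨left, leftInv, leftInv_left, left_leftInv⟩

def rightE : Equiv.Perm ℕ := ⟨right, rightInv, rightInv_right, right_rightInv⟩

/-- The dyadic rational in `[0, 1)` whose binary digits are those of `n`, the lowest first. -/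
def phi (n : ℕ) : ℚ := if n = 0 then 0 else ((n % 2 : ℕ) : ℚ) / 2 + phi (n / 2) / 2
termination_by n
decreasing_by omega

theorem phi_double (m : ℕ) : phi (2 * m) = phi m / 2 := by
  by_cases h : m = 0
  · subst h
    rw [phi]
    simp
  · rw [phi, if_neg (by omega)]
    have h1 : 2 * m % 2 = 0 := by omega
    have h2 : 2 * m / 2 = m := by omega
    rw [h1, h2]
    simp

theorem phi_odd (m : ℕ) : phi (2 * m + 1) = 1 / 2 + phi m / 2 := by
  rw [phi, if_neg (by omega)]
  have h1 : (2 * m + 1) % 2 = 1 := by omega
  have h2 : (2 * m + 1) / 2 = m := by omega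
  rw [h1, h2]
  simp

theorem phi_bounds (n : ℕ) : 0 ≤ phi n ∧ phi n < 1 := by
  induction n using Nat.strong_induction_on with
  | _ n ih =>
    rcases Nat.even_or_odd' n with ⟨k, rfl | rfl⟩
    · by_cases h : k = 0
      · subst h
        rw [phi]
        simp
      · have := ih k (by omega)
        rw [phi_double]
        constructor <;> linarith [this.1, this.2]
    · have := ih k (by omega)
      rw [phi_odd]
      constructor <;> linarith [this.1, this.2]

theorem phi_even_lt {n : ℕ} (h : n % 2 = 0) : phi n < 1 / 2 := by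
  obtain ⟨k, rfl⟩ : ∃ k, n = 2 * k := ⟨n / 2, by omega⟩
  rw [phi_double]
  linarith [(phi_bounds k).2]

theorem phi_odd_le {n : ℕ} (h : n % 2 = 1) : 1 / 2 ≤ phi n := by
  obtain ⟨k, rfl⟩ : ∃ k, n = 2 * k + 1 := ⟨n / 2, by omega⟩
  rw [phi_odd]
  linarith [(phi_bounds k).1]

theorem phi_inj : Function.Injective phi := by
  have key : ∀ n p q, p + q ≤ n → phi p = phi q → p = q := by
    intro n
    induction n with
    | zero => intro p q h _; omega
    | succ n ih =>
      intro p q h hpq
      by_cases h0 : p = 0 ∧ q = 0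
      · omega
      rcases Nat.even_or_odd' p with ⟨k, rfl | rfl⟩ <;> rcases Nat.even_or_odd' q with ⟨m, rfl | rfl⟩
      · rw [phi_double, phi_double] at hpq
        have := ih k m (by omega) (by linarith)
        omega
      · have h1 := phi_even_lt (n := 2 * k) (by omega)
        have h2 := phi_odd_le (n := 2 * m + 1) (by omega)
        linarith
      · have h1 := phi_even_lt (n := 2 * m) (by omega)
        have h2 := phi_odd_le (n := 2 * k + 1) (by omega)
        linarith
      · rw [phi_odd, phi_odd] at hpq
        have := ih k m (by omega) (by linarith)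
        omega
  exact fun p q h => key (p + q) p q le_rfl h

/-- The first generator of Thompson's group `F` as a piecewise linear map. -/
def pl (t : ℚ) : ℚ := if t < 1 / 2 then t / 2 else if t < 3 / 4 then t - 1 / 4 else 2 * t - 1

theorem pl_mono' {s t : ℚ} (h : s < t) : pl s < pl t := by
  unfold pl
  split_ifs <;> linarith

theorem phi_left (n : ℕ) : phi (left n) = pl (phi n) := by
  rcases Nat.even_or_odd' n with ⟨k, rfl | rfl⟩
  · have h1 : left (2 * k) = 2 * (2 * k) := by
      unfold left
      rw [if_pos (by omega)]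
    rw [h1, phi_double, phi_double, pl, if_pos (by linarith [(phi_bounds k).2])]
  · rcases Nat.even_or_odd' k with ⟨m, rfl | rfl⟩
    · have h1 : left (2 * (2 * m) + 1) = 2 * (2 * m + 1) := by
        unfold left
        rw [if_neg (by omega), if_pos (by omega)]
        omega
      have h2 := phi_bounds m
      rw [h1, phi_double, phi_odd, phi_odd, phi_double, pl, if_neg (by linarith),
        if_pos (by linarith)]
      ring
    · have h1 : left (2 * (2 * m + 1) + 1) = 2 * m + 1 := by
        unfold left
        rw [if_neg (by omega), if_neg (by omega)]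
        omega
      have h2 := phi_bounds m
      rw [h1, phi_odd, phi_odd, phi_odd, pl, if_neg (by linarith), if_neg (by linarith)]
      ring

theorem left_mono {p q : ℕ} (h : phi p < phi q) : phi (left p) < phi (left q) := by
  rw [phi_left, phi_left]
  exact pl_mono' h

theorem right_mono {p q : ℕ} (h : phi p < phi q) : phi (right p) < phi (right q) := by
  rcases Nat.even_or_odd' p with ⟨k, rfl | rfl⟩ <;> rcases Nat.even_or_odd' q with ⟨m, rfl | rfl⟩
  · have h1 : right (2 * k) = 2 * k := by unfold right; rw [if_pos (by omega)]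
    have h2 : right (2 * m) = 2 * m := by unfold right; rw [if_pos (by omega)]
    rw [h1, h2]
    exact h
  · have h1 : right (2 * k) = 2 * k := by unfold right; rw [if_pos (by omega)]
    have h2 : right (2 * m + 1) = 2 * left m + 1 := by
      unfold right
      rw [if_neg (by omega)]
      have : (2 * m + 1) / 2 = m := by omega
      rw [this]
    rw [h1, h2]
    have h3 := phi_even_lt (n := 2 * k) (by omega)
    have h4 := phi_odd_le (n := 2 * left m + 1) (by omega)
    linarith
  · have h3 := phi_even_lt (n := 2 * m) (by omega)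
    have h4 := phi_odd_le (n := 2 * k + 1) (by omega)
    linarith
  · have h1 : right (2 * k + 1) = 2 * left k + 1 := by
      unfold right
      rw [if_neg (by omega)]
      have : (2 * k + 1) / 2 = k := by omega
      rw [this]
    have h2 : right (2 * m + 1) = 2 * left m + 1 := by
      unfold right
      rw [if_neg (by omega)]
      have : (2 * m + 1) / 2 = m := by omega
      rw [this]
    rw [phi_odd, phi_odd] at h
    rw [h1, h2, phi_odd, phi_odd]
    have := left_mono (p := k) (q := m) (by linarith)
    linarith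

/-- The rearrangement of the positions by `h`. -/
def pull (h : Equiv.Perm ℕ) : Equiv.Perm (ℕ → Bool) where
  toFun x := x ∘ h
  invFun x := x ∘ h.symm
  left_inv x := by
    funext q
    simp
  right_inv x := by
    funext q
    simp

/-- Flipping the bits given by `r`. -/
def flipP (r : ℕ → Bool) : Equiv.Perm (ℕ → Bool) where
  toFun x := fun q => xor (x q) (r q)
  invFun x := fun q => xor (x q) (r q)
  left_inv x := by
    funext q
    simp
  right_inv x := by
    funext q
    simp

theorem isCoord_pull (h : Equiv.Perm ℕ) : IsCoord (pull h) h fun _ => false := by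
  intro x q
  simp [pull]

theorem isCoord_flipP (r : ℕ → Bool) : IsCoord (flipP r) 1 r := by
  intro x q
  simp [flipP]

theorem perm_apply_inv {α : Type} (e : Equiv.Perm α) (x : α) : e (e⁻¹ x) = x := by simp

theorem IsCoord.inv {γ : Equiv.Perm (ℕ → Bool)} {h : Equiv.Perm ℕ} {r : ℕ → Bool}
    (H : IsCoord γ h r) : IsCoord γ⁻¹ h⁻¹ fun q => r (h⁻¹ q) := by
  intro x q
  have h1 := H (γ⁻¹ x) (h⁻¹ q)
  rw [perm_apply_inv, perm_apply_inv] at h1
  rw [h1]
  simp

theorem countable_closure {G : Type} [Group G] {S : Set G} (hS : S.Countable) :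
    Countable (Subgroup.closure S) := by
  have : Countable S := hS.to_subtype
  have : Countable (FreeGroup S) :=
    inferInstanceAs (Countable (Quot (@FreeGroup.Red.Step S)))
  rw [FreeGroup.closure_eq_range]
  exact (Set.countable_range (FreeGroup.lift ((↑) : S → G))).to_subtype

/-- The group generated by the two permutations of the positions `left` and `right` (a copy of
Thompson's group `F`) and by the flips of finitely many bits. -/
def FG : Subgroup (Equiv.Perm (ℕ → Bool)) :=
  Subgroup.closure ({pull leftE, pull rightE} ∪ Set.range fun s : Finset ℕ =>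
    flipP fun q => decide (q ∈ s))

instance : Countable FG :=
  countable_closure (((Set.countable_singleton _).insert _).union (Set.countable_range _))

theorem fg_coord : ∀ γ ∈ FG, ∃ h r, IsCoord γ h r ∧ ∀ p q, phi p < phi q → phi (h p) < phi (h q) := by
  intro γ hγ
  refine Subgroup.closure_induction (p := fun γ _ => ∃ h r, IsCoord γ h r ∧
    ∀ p q, phi p < phi q → phi (h p) < phi (h q)) ?_ ?_ ?_ ?_ hγ
  · rintro g (hg | ⟨s, rfl⟩)
    · rcases hg with rfl | hg
      · exact ⟨_, _, isCoord_pull _, fun p q h => left_mono h⟩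
      · rw [Set.mem_singleton_iff.1 hg]
        exact ⟨_, _, isCoord_pull _, fun p q h => right_mono h⟩
    · exact ⟨_, _, isCoord_flipP _, fun p q h => h⟩
  · exact ⟨1, fun _ => false, fun x q => by simp, fun p q h => h⟩
  · rintro g g' - - ⟨h, r, H, hm⟩ ⟨h', r', H', hm'⟩
    exact ⟨_, _, H.mul H', fun p q h => hm' _ _ (hm _ _ h)⟩
  · rintro g - ⟨h, r, H, hm⟩
    refine ⟨_, _, H.inv, fun p q hpq => ?_⟩
    by_contra h1
    rcases (not_lt.1 h1).lt_or_eq with h2 | h2
    · have := hm _ _ h2
      rw [perm_apply_inv, perm_apply_inv] at this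
      exact absurd hpq (not_lt.2 this.le)
    · have h3 := phi_inj h2
      have h4 : q = p := h⁻¹.injective h3
      rw [h4] at hpq
      exact lt_irrefl _ hpq

theorem fg_nonParadoxical : NonParadoxical FG := by
  refine nonParadoxical_of_order phi phi_inj (fun γ hγ h r H => ?_) fun p q hp hq =>
    lt_of_lt_of_le (phi_even_lt hp) (phi_odd_le hq)
  obtain ⟨h', r', H', hm⟩ := fg_coord γ hγ
  rw [H.perm_eq H']
  exact hm

/-- `B` is closed under rearranging the positions by `left` and `right` and by their inverses, and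
under changing finitely many bits. -/
def FInvariant (B : Set (ℕ → Bool)) : Prop :=
  (∀ x, (x ∘ left ∈ B ↔ x ∈ B) ∧ (x ∘ right ∈ B ↔ x ∈ B)) ∧
    ∀ x y : ℕ → Bool, {n | x n ≠ y n}.Finite → x ∈ B → y ∈ B

theorem fInvariant_of {B : Set (ℕ → Bool)} (h : ∀ γ ∈ FG, ∀ x, γ x ∈ B ↔ x ∈ B) :
    FInvariant B := by
  refine ⟨fun x => ⟨?_, ?_⟩, fun x y hxy hx => ?_⟩
  · exact h (pull leftE) (Subgroup.subset_closure (Or.inl (Or.inl rfl))) x
  · exact h (pull rightE) (Subgroup.subset_closure (Or.inl (Or.inr rfl))) x
  · have h1 := h (flipP fun q => decide (q ∈ hxy.toFinset))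
      (Subgroup.subset_closure (Or.inr ⟨hxy.toFinset, rfl⟩)) x
    have h2 : flipP (fun q => decide (q ∈ hxy.toFinset)) x = y := by
      funext q
      simp only [flipP, Equiv.coe_fn_mk, Set.Finite.mem_toFinset, Set.mem_ofPred_eq]
      by_cases h3 : x q = y q
      · simp [h3]
      · simp only [ne_eq, h3, not_false_eq_true, decide_true]
        revert h3
        cases x q <;> cases y q <;> simp
    rw [← h2]
    exact h1.2 hx

theorem thompson : ∃ (W D : Set (ℕ → Bool)) (F : (ℕ → Bool) → ℕ → Bool),
    MeasurableSet W ∧ MeasurableSet D ∧ Measurable F ∧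
    ∀ A : Set (ℕ → Bool), FInvariant (W ∪ {x | x ∈ D ∧ F x ∈ A}) ∧
      (WinsI (W ∪ {x | x ∈ D ∧ F x ∈ A}) ↔ WinsI A) ∧
      (WinsII (W ∪ {x | x ∈ D ∧ F x ∈ A}) ↔ WinsII A) := by
  obtain ⟨W, D, F, h1, h2, h3, h4, h5⟩ := main FG (fun γ hγ => by
    obtain ⟨h, r, H, -⟩ := fg_coord γ hγ
    exact ⟨h, r, H⟩) fg_nonParadoxical
  refine ⟨W, D, F, h1, h2, h3, fun A => ⟨fInvariant_of fun γ hγ x => ?_, h5 A⟩⟩
  obtain ⟨h6, h7, h8⟩ := h4 γ hγ x
  simp only [Set.mem_union, Set.mem_ofPred_eq, h6, h7, h8]

end Pool.Agent.Q202.IDet
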